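import Mathlib

/-!
# Local limits of random rooted graphs from minor-closed classes: definitions
-/

open Filter Topology

namespace Pool.Agent.Lib.MP_e761a2_pr

/-- `H` is a minor of `G`: there are pairwise disjoint branch sets in `G`, indexed by the
vertices of `H`, each inducing a (nonempty) connected subgraph of `G`, such that the branch sets
of adjacent vertices of `H` are joined by an edge of `G`. -/
def IsMinor {W V : Type*} (H : SimpleGraph W) (G : SimpleGraph V) : Prop :=
  ∃ B : W → Set V,
    (∀ w, (G.induce (B w)).Connected) ∧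
    (Pairwise fun w w' => Disjoint (B w) (B w')) ∧
    ∀ w w', H.Adj w w' → ∃ x ∈ B w, ∃ y ∈ B w', G.Adj x y

/-- Finite simple graphs, on the vertex sets `Fin k`. -/
abbrev FinGraph := Σ k : ℕ, SimpleGraph (Fin k)

/-- `G` contains no graph of `S` as a minor. -/
def Excludes (S : Set FinGraph) {V : Type*} (G : SimpleGraph V) : Prop :=
  ∀ H ∈ S, ¬ IsMinor H.2 G

/-- The vertex set of the ball `B_r(G, o)`: the vertices reached from `o` by a walk of length at
most `r`. -/
def ball {V : Type*} (G : SimpleGraph V) (o : V) (r : ℕ) : Set V :=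
  {v | ∃ p : G.Walk o v, p.length ≤ r}

lemma self_mem_ball {V : Type*} (G : SimpleGraph V) (o : V) (r : ℕ) : o ∈ ball G o r :=
  ⟨SimpleGraph.Walk.nil, Nat.zero_le r⟩

/-- Rooted isomorphism of the rooted graphs `(G, o)` and `(H, p)`. -/
def RootedIso {V W : Type*} (G : SimpleGraph V) (o : V) (H : SimpleGraph W) (p : W) : Prop :=
  ∃ e : G ≃g H, e o = p

/-- `B_r(G, o) ≅ (H, p)`: the subgraph of `G` induced on the ball of radius `r` around `o`,
rooted at `o`, is rooted-isomorphic to `(H, p)`. -/
def BallIso (r : ℕ) {V W : Type*} (G : SimpleGraph V) (o : V) (H : SimpleGraph W) (p : W) : Prop :=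
  RootedIso (G.induce (ball G o r)) ⟨o, self_mem_ball G o r⟩ H p

/-- Finite rooted graphs, on the vertex sets `Fin k`. -/
abbrev FinRooted := Σ k : ℕ, SimpleGraph (Fin k) × Fin k

lemma RootedIso.refl {V : Type*} (G : SimpleGraph V) (o : V) : RootedIso G o G o :=
  ⟨SimpleGraph.Iso.refl, rfl⟩

lemma RootedIso.symm {V W : Type*} {G : SimpleGraph V} {o : V} {H : SimpleGraph W} {p : W}
    (h : RootedIso G o H p) : RootedIso H p G o := by
  obtain ⟨e, he⟩ := h
  exact ⟨e.symm, by rw [← he]; exact e.symm_apply_apply o⟩

lemma RootedIso.trans {V W X : Type*} {G : SimpleGraph V} {o : V} {H : SimpleGraph W} {p : W}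
    {K : SimpleGraph X} {q : X}
    (h : RootedIso G o H p) (h' : RootedIso H p K q) : RootedIso G o K q := by
  obtain ⟨e, he⟩ := h
  obtain ⟨f, hf⟩ := h'
  exact ⟨e.trans f, by rw [← hf, ← he]; rfl⟩

/-- Rooted isomorphism, as an equivalence relation on finite rooted graphs. -/
def finRootedSetoid : Setoid FinRooted where
  r H K := RootedIso H.2.1 H.2.2 K.2.1 K.2.2
  iseqv := ⟨fun H => RootedIso.refl _ _, RootedIso.symm, RootedIso.trans⟩

/-- Rooted-isomorphism classes of finite rooted graphs. -/
abbrev FinRootedClass := Quotient finRootedSetoid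

/-- Rooted isomorphism, as an equivalence relation on rooted graphs with vertex set `Fin n`. -/
def isoSetoid (n : ℕ) : Setoid (SimpleGraph (Fin n) × Fin n) where
  r x y := RootedIso x.1 x.2 y.1 y.2
  iseqv := ⟨fun _ => RootedIso.refl _ _, RootedIso.symm, RootedIso.trans⟩

/-- The rooted connected graphs on the vertex set `Fin n` with no minor in `S`. -/
def Members (S : Set FinGraph) (n : ℕ) : Set (SimpleGraph (Fin n) × Fin n) :=
  {x | x.1.Connected ∧ Excludes S x.1}

/-- The probability of the event `E` when `R_n` is drawn uniformly from the *labelled* rooted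
connected graphs on `Fin n` with no minor in `S`. -/
noncomputable def labelledProb (S : Set FinGraph) (n : ℕ)
    (E : Set (SimpleGraph (Fin n) × Fin n)) : ℝ :=
  ((Members S n ∩ E).ncard : ℝ) / ((Members S n).ncard : ℝ)

/-- The probability of the (isomorphism invariant) event `E` when `R_n` is drawn uniformly from
the *rooted-isomorphism classes* of rooted connected graphs with `n` vertices and no minor
in `S`. -/
noncomputable def unlabelledProb (S : Set FinGraph) (n : ℕ)
    (E : Set (SimpleGraph (Fin n) × Fin n)) : ℝ :=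
  ((Quotient.mk (isoSetoid n) '' (Members S n ∩ E)).ncard : ℝ) /
    ((Quotient.mk (isoSetoid n) '' (Members S n)).ncard : ℝ)

/-- Weak (local) convergence of `R_n`, where `P n E` is the probability that `R_n ∈ E`: for every
`r` and every finite rooted graph `H` the probability that `B_r(R_n) ≅ H` converges, and for each
`r` the limits sum to `1` over the isomorphism classes of finite rooted graphs `H`. -/
def HasWeakLimit (P : (n : ℕ) → Set (SimpleGraph (Fin n) × Fin n) → ℝ) : Prop :=
  ∃ q : ℕ → FinRootedClass → ℝ,
    (∀ (r : ℕ) (H : FinRooted),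
      Tendsto (fun n => P n {x | BallIso r x.1 x.2 H.2.1 H.2.2}) atTop
        (𝓝 (q r (Quotient.mk finRootedSetoid H)))) ∧
    ∀ r : ℕ, HasSum (q r) 1

/-- The tree obtained from two disjoint claws `K_{1,3}` by joining their centres. -/
def clawTree₁ : SimpleGraph (Fin 8) :=
  SimpleGraph.fromEdgeSet {s(0, 1), s(0, 2), s(0, 3), s(4, 5), s(4, 6), s(4, 7), s(0, 4)}

/-- The tree obtained from two disjoint claws `K_{1,3}` by joining the centre of the first to a
leaf of the second. -/
def clawTree₂ : SimpleGraph (Fin 8) :=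
  SimpleGraph.fromEdgeSet {s(0, 1), s(0, 2), s(0, 3), s(4, 5), s(4, 6), s(4, 7), s(0, 5)}

/-- The tree obtained from two disjoint claws `K_{1,3}` by joining a leaf of the first to a
leaf of the second. -/
def clawTree₃ : SimpleGraph (Fin 8) :=
  SimpleGraph.fromEdgeSet {s(0, 1), s(0, 2), s(0, 3), s(4, 5), s(4, 6), s(4, 7), s(1, 5)}

/-- The set of the three trees on eight vertices made of two disjoint claws and one edge joining
them. -/
def clawTrees : Set FinGraph := {⟨8, clawTree₁⟩, ⟨8, clawTree₂⟩, ⟨8, clawTree₃⟩}

end Pool.Agent.Lib.MP_e761a2_pr
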