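import Mathlib
import Pool.Agent.Lib.MP_e761a2_pr.Defs

/-!
# Two disjoint claws versus minors
-/

namespace Pool.Agent.Lib.MP_e761a2_pr

open SimpleGraph

/-- Edges (as ordered pairs) of two disjoint claws on `Fin 8`. -/
def CE (a b : Fin 8) : Prop :=
  (a = 0 ∧ (b = 1 ∨ b = 2 ∨ b = 3)) ∨ (b = 0 ∧ (a = 1 ∨ a = 2 ∨ a = 3)) ∨
  (a = 4 ∧ (b = 5 ∨ b = 6 ∨ b = 7)) ∨ (b = 4 ∧ (a = 5 ∨ a = 6 ∨ a = 7))

instance : DecidableRel CE := fun a b => by unfold CE; infer_instance

/-- `G` contains two vertex disjoint claws. -/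
def TwoClaws {V : Type*} (G : SimpleGraph V) : Prop :=
  ∃ f : Fin 8 → V, Function.Injective f ∧ ∀ a b, CE a b → G.Adj (f a) (f b)

lemma clawTree₁_adj (a b : Fin 8) : clawTree₁.Adj a b ↔
    CE a b ∨ (a = 0 ∧ b = 4) ∨ (a = 4 ∧ b = 0) := by
  unfold clawTree₁ CE
  revert a b
  simp only [fromEdgeSet_adj, Set.mem_insert_iff, Set.mem_singleton_iff, Sym2.eq_iff]
  decide

lemma clawTree₂_adj (a b : Fin 8) : clawTree₂.Adj a b ↔
    CE a b ∨ (a = 0 ∧ b = 5) ∨ (a = 5 ∧ b = 0) := by
  unfold clawTree₂ CE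
  revert a b
  simp only [fromEdgeSet_adj, Set.mem_insert_iff, Set.mem_singleton_iff, Sym2.eq_iff]
  decide

lemma clawTree₃_adj (a b : Fin 8) : clawTree₃.Adj a b ↔
    CE a b ∨ (a = 1 ∧ b = 5) ∨ (a = 5 ∧ b = 1) := by
  unfold clawTree₃ CE
  revert a b
  simp only [fromEdgeSet_adj, Set.mem_insert_iff, Set.mem_singleton_iff, Sym2.eq_iff]
  decide


lemma minor_of {V : Type*} {G : SimpleGraph V} {f : Fin 8 → V} (hf : Function.Injective f)
    (hadj : ∀ a b, CE a b → G.Adj (f a) (f b)) {i j : Fin 8} {Z : Set V}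
    (hZ : (G.induce Z).Connected) (hiZ : f i ∈ Z) (hZf : ∀ k, k ≠ i → f k ∉ Z)
    (hw : ∃ w ∈ Z, G.Adj w (f j)) (T : SimpleGraph (Fin 8)) (σ : Fin 8 → Fin 8)
    (hσ : Function.Injective σ)
    (hT : ∀ a b, T.Adj a b → CE (σ a) (σ b) ∨ (σ a = i ∧ σ b = j) ∨ (σ a = j ∧ σ b = i)) :
    IsMinor T G := by
  classical
  have hmem : ∀ a, f (σ a) ∈ (if σ a = i then Z else {f (σ a)} : Set V) := by
    intro a
    split_ifs with h
    · rw [h]; exact hiZ
    · rfl
  refine ⟨fun a => if σ a = i then Z else {f (σ a)}, ?_, ?_, ?_⟩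
  · intro a
    dsimp only
    by_cases h : σ a = i
    · rw [if_pos h]; exact hZ
    · rw [if_neg h]
      exact Connected.of_subsingleton
  · intro a b hab
    dsimp only
    rw [Set.disjoint_left]
    intro x hx hx'
    split_ifs at hx hx' with h1 h2 h2
    · exact hab (hσ (h1.trans h2.symm))
    · rw [Set.mem_singleton_iff] at hx'
      exact hZf _ h2 (hx' ▸ hx)
    · rw [Set.mem_singleton_iff] at hx
      exact hZf _ h1 (hx ▸ hx')
    · rw [Set.mem_singleton_iff] at hx hx'
      exact hab (hσ (hf (hx.symm.trans hx')))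
  · intro a b hab
    dsimp only
    rcases hT a b hab with h | ⟨h1, h2⟩ | ⟨h1, h2⟩
    · exact ⟨f (σ a), hmem a, f (σ b), hmem b, hadj _ _ h⟩
    · obtain ⟨w, hwZ, hw⟩ := hw
      refine ⟨w, ?_, f (σ b), hmem b, ?_⟩
      · rw [if_pos h1]; exact hwZ
      · rw [h2]; exact hw
    · obtain ⟨w, hwZ, hw⟩ := hw
      refine ⟨f (σ a), hmem a, w, ?_, ?_⟩
      · rw [if_pos h2]; exact hwZ
      · rw [h1]; exact hw.symm

/-- A connected graph with two disjoint claws has one of the three claw trees as a minor. -/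
lemma not_excludes_of_twoClaws {V : Type*} {G : SimpleGraph V} (hG : G.Connected)
    (h : TwoClaws G) : ¬ Excludes clawTrees G := by
  classical
  obtain ⟨f, hf, hadj⟩ := h
  -- a shortest walk from the first claw to the second
  have hex : ∃ n : ℕ, ∃ i j : Fin 8, i.val < 4 ∧ 4 ≤ j.val ∧ ∃ p : G.Walk (f i) (f j),
      p.length = n := by
    obtain ⟨p⟩ := hG.preconnected (f 0) (f 4)
    exact ⟨p.length, 0, 4, by decide, by decide, p, rfl⟩
  obtain ⟨i, j, hi, hj, p, hp⟩ := Nat.find_spec hex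
  have hmin : ∀ (i' j' : Fin 8), i'.val < 4 → 4 ≤ j'.val → ∀ q : G.Walk (f i') (f j'),
      p.length ≤ q.length := by
    intro i' j' hi' hj' q
    rw [hp]
    exact Nat.find_min' hex ⟨i', j', hi', hj', q, rfl⟩
  have hij : i ≠ j := by
    rintro rfl; omega
  -- write the walk as `q` followed by one edge
  obtain ⟨w, q, hwj, hpq⟩ : ∃ (w : V) (q : G.Walk (f i) w) (h : G.Adj w (f j)),
      p = q.concat h := by
    have hnn : ¬ p.Nil := by
      intro hn
      exact hij (hf hn.eq)
    exact ⟨_, _, p.adj_penultimate hnn, (p.concat_dropLast (p.adj_penultimate hnn)).symm⟩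
  have hlen : p.length = q.length + 1 := by rw [hpq, SimpleGraph.Walk.length_concat]
  have hZf : ∀ k, k ≠ i → f k ∉ {v | v ∈ q.support} := by
    intro k hk hkq
    simp only [Set.mem_ofPred_eq] at hkq
    rcases lt_or_ge k.val 4 with h4 | h4
    · -- drop the beginning
      have h1 := hmin k j h4 hj ((q.dropUntil _ hkq).concat hwj)
      rw [SimpleGraph.Walk.length_concat] at h1
      have h2 : (q.takeUntil _ hkq).length + (q.dropUntil _ hkq).length = q.length := by
        rw [← SimpleGraph.Walk.length_append, SimpleGraph.Walk.take_spec]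
      have h3 : (q.takeUntil _ hkq).length = 0 := by omega
      exact hk (hf (SimpleGraph.Walk.eq_of_length_eq_zero h3)).symm
    · have h1 := hmin i k hi h4 (q.takeUntil _ hkq)
      have h2 := q.length_takeUntil_le_length hkq
      omega
  have key := fun (T : SimpleGraph (Fin 8)) (σ : Fin 8 → Fin 8) (hσ : Function.Injective σ)
    (hT : ∀ a b, T.Adj a b → CE (σ a) (σ b) ∨ (σ a = i ∧ σ b = j) ∨ (σ a = j ∧ σ b = i)) =>
    minor_of hf hadj q.connected_induce_support q.start_mem_support hZf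
      ⟨w, q.end_mem_support, hwj⟩ T σ hσ hT
  intro hex'
  have e1 : ¬ IsMinor clawTree₁ G := hex' ⟨8, clawTree₁⟩ (by simp [clawTrees])
  have e2 : ¬ IsMinor clawTree₂ G := hex' ⟨8, clawTree₂⟩ (by simp [clawTrees])
  have e3 : ¬ IsMinor clawTree₃ G := hex' ⟨8, clawTree₃⟩ (by simp [clawTrees])
  have k1 := fun (σ : Fin 8 → Fin 8) (hσ : Function.Injective σ) hT => e1 (key clawTree₁ σ hσ hT)
  have k2 := fun (σ : Fin 8 → Fin 8) (hσ : Function.Injective σ) hT => e2 (key clawTree₂ σ hσ hT)
  have k3 := fun (σ : Fin 8 → Fin 8) (hσ : Function.Injective σ) hT => e3 (key clawTree₃ σ hσ hT)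
  simp only [clawTree₁_adj] at k1
  simp only [clawTree₂_adj] at k2
  simp only [clawTree₃_adj] at k3
  clear key e1 e2 e3 hex' hZf hlen hpq hwj q w hmin hp p hex hadj hf hG
  fin_cases i <;> fin_cases j <;> simp at hi hj hij <;> first
    | exact k1 ![0, 1, 2, 3, 4, 5, 6, 7] (by decide) (by decide)
    | exact k2 ![0, 1, 2, 3, 4, 5, 6, 7] (by decide) (by decide)
    | exact k2 ![0, 1, 2, 3, 4, 6, 5, 7] (by decide) (by decide)
    | exact k2 ![0, 1, 2, 3, 4, 7, 5, 6] (by decide) (by decide)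
    | exact k2 ![4, 5, 6, 7, 0, 1, 2, 3] (by decide) (by decide)
    | exact k2 ![4, 5, 6, 7, 0, 2, 1, 3] (by decide) (by decide)
    | exact k2 ![4, 5, 6, 7, 0, 3, 1, 2] (by decide) (by decide)
    | exact k3 ![0, 1, 2, 3, 4, 5, 6, 7] (by decide) (by decide)
    | exact k3 ![0, 1, 2, 3, 4, 6, 5, 7] (by decide) (by decide)
    | exact k3 ![0, 1, 2, 3, 4, 7, 5, 6] (by decide) (by decide)
    | exact k3 ![0, 2, 1, 3, 4, 5, 6, 7] (by decide) (by decide)
    | exact k3 ![0, 2, 1, 3, 4, 6, 5, 7] (by decide) (by decide)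
    | exact k3 ![0, 2, 1, 3, 4, 7, 5, 6] (by decide) (by decide)
    | exact k3 ![0, 3, 1, 2, 4, 5, 6, 7] (by decide) (by decide)
    | exact k3 ![0, 3, 1, 2, 4, 6, 5, 7] (by decide) (by decide)
    | exact k3 ![0, 3, 1, 2, 4, 7, 5, 6] (by decide) (by decide)


/-- A model of a claw contains a claw. -/
lemma exists_claw {V : Type*} [Finite V] (G : SimpleGraph V) (B : Fin 4 → Set V)
    (h0 : (G.induce (B 0)).Connected)
    (hdisj : Pairwise fun i j => Disjoint (B i) (B j))
    (hadj : ∀ i, i ≠ 0 → ∃ x ∈ B 0, ∃ y ∈ B i, G.Adj x y) :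
    ∃ g : Fin 4 → V, Function.Injective g ∧ (∀ i, i ≠ 0 → G.Adj (g 0) (g i)) ∧
      ∀ i, ∃ j, g i ∈ B j := by
  classical
  have := Fintype.ofFinite V
  have : Nonempty V := ⟨(h0.nonempty.some).1⟩
  choose! x hx y hy hxy using hadj
  -- neighbours of `v` inside the union of the branch sets
  set U : Set V := ⋃ j, B j with hU
  set NU : V → Finset V := fun v => Finset.univ.filter fun w => G.Adj v w ∧ w ∈ U with hNU
  suffices hc : ∃ c ∈ B 0, 3 ≤ (NU c).card by
    obtain ⟨c, hc, h3⟩ := hc
    obtain ⟨a, b, d, ha, hb, hd, hab, had, hbd⟩ := Finset.two_lt_card_iff.1 h3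
    simp only [hNU, Finset.mem_filter, Finset.mem_univ, true_and, hU, Set.mem_iUnion] at ha hb hd
    refine ⟨![c, a, b, d], ?_, ?_, ?_⟩
    · intro i j hij
      have hca := ha.1.ne
      have hcb := hb.1.ne
      have hcd := hd.1.ne
      fin_cases i <;> fin_cases j <;> simp_all [eq_comm]
    · intro i hi
      fin_cases i
      · exact absurd rfl hi
      · exact ha.1
      · exact hb.1
      · exact hd.1
    · intro i
      fin_cases i
      · exact ⟨0, hc⟩
      · exact ha.2
      · exact hb.2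
      · exact hd.2
  by_contra hcon
  push Not at hcon
  -- count
  set G0 := G.induce (B 0) with hG0
  have hdeg : ∀ v : B 0, G0.degree v +
      (Finset.univ.filter fun i : Fin 4 => i ≠ 0 ∧ x i = v).card ≤ (NU v).card := by
    intro v
    have hinj1 : ((G0.neighborFinset v).map ⟨Subtype.val, Subtype.val_injective⟩).card
        = G0.degree v := by
      rw [Finset.card_map, SimpleGraph.card_neighborFinset_eq_degree]
    have hinj2 : ((Finset.univ.filter fun i : Fin 4 => i ≠ 0 ∧ x i = v).image y).card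
        = (Finset.univ.filter fun i : Fin 4 => i ≠ 0 ∧ x i = v).card := by
      apply Finset.card_image_of_injOn
      intro i hi j hj hij
      simp only [Finset.coe_filter, Finset.mem_univ, true_and, Set.mem_ofPred_eq] at hi hj
      by_contra hne
      exact (Set.disjoint_left.1 (hdisj hne)) (hy i hi.1) (hij ▸ hy j hj.1)
    rw [← hinj1, ← hinj2, ← Finset.card_union_of_disjoint]
    · apply Finset.card_le_card
      intro w hw
      rw [Finset.mem_union] at hw
      simp only [hNU, Finset.mem_filter, Finset.mem_univ, true_and]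
      rcases hw with hw | hw
      · simp only [Finset.mem_map, SimpleGraph.mem_neighborFinset, Function.Embedding.coeFn_mk] at hw
        obtain ⟨a, ha, rfl⟩ := hw
        exact ⟨ha, Set.mem_iUnion.2 ⟨0, a.2⟩⟩
      · simp only [Finset.mem_image, Finset.mem_filter, Finset.mem_univ, true_and] at hw
        obtain ⟨i, ⟨hi, hxi⟩, rfl⟩ := hw
        exact ⟨hxi ▸ hxy i hi, Set.mem_iUnion.2 ⟨i, hy i hi⟩⟩
    · rw [Finset.disjoint_left]
      intro w hw hw'
      simp only [Finset.mem_map, SimpleGraph.mem_neighborFinset, Function.Embedding.coeFn_mk] at hw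
      obtain ⟨a, ha, rfl⟩ := hw
      simp only [Finset.mem_image, Finset.mem_filter, Finset.mem_univ, true_and] at hw'
      obtain ⟨i, ⟨hi, hxi⟩, hya⟩ := hw'
      exact (Set.disjoint_left.1 (hdisj (Ne.symm hi))) a.2 (hya ▸ hy i hi)
  have hsum1 : ∑ v : B 0, G0.degree v = 2 * G0.edgeFinset.card :=
    G0.sum_degrees_eq_twice_card_edges
  have hsum2 : ∑ v : B 0, (Finset.univ.filter fun i : Fin 4 => i ≠ 0 ∧ x i = v).card = 3 := by
    have : (Finset.univ.filter fun i : Fin 4 => i ≠ 0).card = 3 := by decide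
    refine Eq.trans ?_ this
    symm
    rw [Finset.card_eq_sum_card_fiberwise (f := fun i => if h : i ≠ 0 then
      (⟨x i, hx i h⟩ : B 0) else ⟨x 1, hx 1 (by decide)⟩) (t := Finset.univ) (by simp)]
    apply Finset.sum_congr rfl
    intro v _
    congr 1
    ext i
    simp only [Finset.mem_filter, Finset.mem_univ, true_and]
    constructor
    · rintro ⟨hi, h⟩
      rw [dif_pos hi] at h
      exact ⟨hi, congrArg Subtype.val h⟩
    · rintro ⟨hi, h⟩
      refine ⟨hi, ?_⟩
      rw [dif_pos hi]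
      exact Subtype.ext h
  have hedge := h0.card_vert_le_card_edgeSet_add_one
  rw [Nat.card_eq_fintype_card, Nat.card_eq_fintype_card, ← SimpleGraph.edgeFinset_card] at hedge
  have hle : ∑ v : B 0, (G0.degree v +
      (Finset.univ.filter fun i : Fin 4 => i ≠ 0 ∧ x i = v).card) ≤ ∑ v : B 0, 2 := by
    apply Finset.sum_le_sum
    intro v _
    have := hcon v v.2
    have := hdeg v
    omega
  rw [Finset.sum_add_distrib, hsum1, hsum2] at hle
  simp only [Finset.sum_const, Finset.card_univ, smul_eq_mul] at hle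
  omega

/-- If a graph `T` on `Fin 8` contains the two disjoint claws and is a minor of `G`, then `G`
contains two disjoint claws. -/
lemma twoClaws_of_isMinor {V : Type*} [Finite V] {G : SimpleGraph V} {T : SimpleGraph (Fin 8)}
    (hT : ∀ a b, CE a b → T.Adj a b) (h : IsMinor T G) : TwoClaws G := by
  classical
  obtain ⟨B, hconn, hdisj, hadj⟩ := h
  obtain ⟨g, hg, hga, hgB⟩ := exists_claw G (fun i => B (![0, 1, 2, 3] i)) (hconn 0)
    (by
      intro i j hij
      apply hdisj
      intro h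
      apply hij
      revert h
      revert i j
      decide)
    (by
      intro i hi
      apply hadj
      apply hT
      revert i
      decide)
  obtain ⟨g', hg', hga', hgB'⟩ := exists_claw G (fun i => B (![4, 5, 6, 7] i)) (hconn 4)
    (by
      intro i j hij
      apply hdisj
      intro h
      apply hij
      revert h
      revert i j
      decide)
    (by
      intro i hi
      apply hadj
      apply hT
      revert i
      decide)
  have hne : ∀ i j, g i ≠ g' j := by
    intro i j h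
    obtain ⟨k, hk⟩ := hgB i
    obtain ⟨l, hl⟩ := hgB' j
    have hkl : ∀ k l : Fin 4, (![0, 1, 2, 3] k : Fin 8) ≠ ![4, 5, 6, 7] l := by
      decide
    exact Set.disjoint_left.1 (hdisj (hkl k l)) hk (h ▸ hl)
  refine ⟨![g 0, g 1, g 2, g 3, g' 0, g' 1, g' 2, g' 3], ?_, ?_⟩
  · intro i j hij
    have e1 : ∀ i j : Fin 4, g i = g j ↔ i = j := fun i j => hg.eq_iff
    have e2 : ∀ i j : Fin 4, g' i = g' j ↔ i = j := fun i j => hg'.eq_iff
    have e3 : ∀ i j : Fin 4, g i = g' j ↔ False := fun i j => by simpa using hne i j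
    have e4 : ∀ i j : Fin 4, g' i = g j ↔ False := fun i j => by simpa using (hne j i).symm
    fin_cases i <;> fin_cases j <;> simp_all
  · intro a b hab
    rcases hab with ⟨rfl, rfl | rfl | rfl⟩ | ⟨rfl, rfl | rfl | rfl⟩ | ⟨rfl, rfl | rfl | rfl⟩ |
      ⟨rfl, rfl | rfl | rfl⟩
    · exact hga 1 (by decide)
    · exact hga 2 (by decide)
    · exact hga 3 (by decide)
    · exact (hga 1 (by decide)).symm
    · exact (hga 2 (by decide)).symm
    · exact (hga 3 (by decide)).symm
    · exact hga' 1 (by decide)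
    · exact hga' 2 (by decide)
    · exact hga' 3 (by decide)
    · exact (hga' 1 (by decide)).symm
    · exact (hga' 2 (by decide)).symm
    · exact (hga' 3 (by decide)).symm

lemma excludes_of_not_twoClaws {V : Type*} [Finite V] {G : SimpleGraph V} (h : ¬ TwoClaws G) :
    Excludes clawTrees G := by
  intro H hH hm
  simp only [clawTrees, Set.mem_insert_iff, Set.mem_singleton_iff] at hH
  apply h
  rcases hH with rfl | rfl | rfl
  · exact twoClaws_of_isMinor (fun a b hab => (clawTree₁_adj a b).2 (Or.inl hab)) hm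
  · exact twoClaws_of_isMinor (fun a b hab => (clawTree₂_adj a b).2 (Or.inl hab)) hm
  · exact twoClaws_of_isMinor (fun a b hab => (clawTree₃_adj a b).2 (Or.inl hab)) hm

lemma excludes_iff {V : Type*} [Finite V] {G : SimpleGraph V} (hG : G.Connected) :
    Excludes clawTrees G ↔ ¬ TwoClaws G :=
  ⟨fun h h' => not_excludes_of_twoClaws hG h' h, excludes_of_not_twoClaws⟩

end Pool.Agent.Lib.MP_e761a2_pr
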