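import Mathlib
import Pool.Agent.Lib.MP_e761a2_pr.Claws

/-!
# Hubs
-/

namespace Pool.Agent.Lib.MP_e761a2_pr

open SimpleGraph

/-- The neighbourhood of `v`. -/
def nbh {V : Type*} (G : SimpleGraph V) (v : V) : Set V := {w | G.Adj v w}

/-- `h` meets every claw of `G`: in `G - h` all degrees are at most two. -/
def IsHub {V : Type*} (G : SimpleGraph V) (h : V) : Prop :=
  ∀ c, c ≠ h → {w | G.Adj c w ∧ w ≠ h}.ncard ≤ 2

variable {V : Type*} [Finite V]

lemma isHub_of_deg {G : SimpleGraph V} (hG : ¬ TwoClaws G) {h : V} (hd : 7 ≤ (nbh G h).ncard) :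
    IsHub G h := by
  classical
  intro c hc
  by_contra hcon
  push Not at hcon
  apply hG
  obtain ⟨a, b, d, ha, hb, hd', hab, had, hbd⟩ := (Set.two_lt_ncard_iff (Set.toFinite _)).1 hcon
  have h4 : ({c, a, b, d} : Set V).ncard ≤ 4 := by
    refine (Set.ncard_insert_le _ _).trans ?_
    refine Nat.succ_le_succ ((Set.ncard_insert_le _ _).trans ?_)
    refine Nat.succ_le_succ ((Set.ncard_insert_le _ _).trans ?_)
    simp
  have h3 : 2 < (nbh G h \ {c, a, b, d}).ncard := by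
    have := Set.ncard_le_ncard_sdiff_add_ncard (nbh G h) ({c, a, b, d} : Set V) (Set.toFinite _)
    omega
  obtain ⟨x, y, z, hx, hy, hz, hxy, hxz, hyz⟩ := (Set.two_lt_ncard_iff (Set.toFinite _)).1 h3
  simp only [nbh, Set.mem_sdiff, Set.mem_ofPred_eq, Set.mem_insert_iff, Set.mem_singleton_iff,
    not_or] at hx hy hz ha hb hd'
  obtain ⟨hxh, hxc, hxa, hxb, hxd⟩ := hx
  obtain ⟨hyh, hyc, hya, hyb, hyd⟩ := hy
  obtain ⟨hzh, hzc, hza, hzb, hzd⟩ := hz
  obtain ⟨hca, hah⟩ := ha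
  obtain ⟨hcb, hbh⟩ := hb
  obtain ⟨hcd, hdh⟩ := hd'
  have e1 := hca.ne
  have e2 := hcb.ne
  have e3 := hcd.ne
  have e4 := hxh.ne
  have e5 := hyh.ne
  have e6 := hzh.ne
  refine ⟨![c, a, b, d, h, x, y, z], ?_, ?_⟩
  · intro i j hij
    fin_cases i <;> fin_cases j <;> simp_all [eq_comm]
  · intro i j hij
    rcases hij with ⟨rfl, rfl | rfl | rfl⟩ | ⟨rfl, rfl | rfl | rfl⟩ | ⟨rfl, rfl | rfl | rfl⟩ |
      ⟨rfl, rfl | rfl | rfl⟩
    · exact hca
    · exact hcb
    · exact hcd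
    · exact hca.symm
    · exact hcb.symm
    · exact hcd.symm
    · exact hxh
    · exact hyh
    · exact hzh
    · exact hxh.symm
    · exact hyh.symm
    · exact hzh.symm

lemma not_twoClaws_of_isHub {G : SimpleGraph V} {h : V} (hh : IsHub G h) : ¬ TwoClaws G := by
  classical
  rintro ⟨f, hf, hadj⟩
  have key : ∀ c a b d : Fin 8, CE c a → CE c b → CE c d → a ≠ b → a ≠ d → b ≠ d →
      f c ≠ h → f a ≠ h → f b ≠ h → f d ≠ h → False := by
    intro c a b d hca hcb hcd hab had hbd h1 h2 h3 h4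
    have := hh (f c) h1
    have h3' : 2 < {w | G.Adj (f c) w ∧ w ≠ h}.ncard := by
      rw [Set.two_lt_ncard_iff (Set.toFinite _)]
      exact ⟨f a, f b, f d, ⟨hadj _ _ hca, h2⟩, ⟨hadj _ _ hcb, h3⟩, ⟨hadj _ _ hcd, h4⟩,
        fun h => hab (hf h), fun h => had (hf h), fun h => hbd (hf h)⟩
    omega
  by_cases hx : ∃ i : Fin 8, i.val < 4 ∧ f i = h
  · obtain ⟨i, hi, hih⟩ := hx
    have hne : ∀ j : Fin 8, 4 ≤ j.val → f j ≠ h := by
      intro j hj hjh
      have := hf (hih.trans hjh.symm)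
      subst this
      omega
    exact key 4 5 6 7 (by decide) (by decide) (by decide) (by decide) (by decide) (by decide)
      (hne 4 (by decide)) (hne 5 (by decide)) (hne 6 (by decide)) (hne 7 (by decide))
  · push Not at hx
    exact key 0 1 2 3 (by decide) (by decide) (by decide) (by decide) (by decide) (by decide)
      (hx 0 (by decide)) (hx 1 (by decide)) (hx 2 (by decide)) (hx 3 (by decide))

/-- In a graph with hub `h`, all other vertices have degree at most three. -/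
lemma IsHub.deg_le {G : SimpleGraph V} {h : V} (hh : IsHub G h) {c : V} (hc : c ≠ h) :
    (nbh G c).ncard ≤ 3 := by
  have h1 := hh c hc
  have h2 : nbh G c ⊆ insert h {w | G.Adj c w ∧ w ≠ h} := by
    intro w hw
    by_cases hwh : w = h
    · left; exact hwh
    · right; exact ⟨hw, hwh⟩
  have h3 := Set.ncard_le_ncard h2 (Set.toFinite _)
  have h4 := Set.ncard_insert_le h {w | G.Adj c w ∧ w ≠ h}
  omega

lemma IsHub.unique {G : SimpleGraph V} {h h' : V} (hh : IsHub G h)
    (hd : 7 ≤ (nbh G h').ncard) : h' = h := by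
  by_contra hne
  have := hh.deg_le hne
  omega

omit [Finite V] in
lemma sup_edge_adj (G : SimpleGraph V) (h y u v : V) :
    (G ⊔ edge h y).Adj u v ↔ G.Adj u v ∨ ((u = h ∧ v = y ∨ u = y ∧ v = h) ∧ u ≠ v) := by
  rw [SimpleGraph.sup_adj, SimpleGraph.edge_adj]

omit [Finite V] in
lemma IsHub.sup_edge {G : SimpleGraph V} {h : V} (hh : IsHub G h) (y : V) :
    IsHub (G ⊔ edge h y) h := by
  intro c hc
  have : {w | (G ⊔ edge h y).Adj c w ∧ w ≠ h} = {w | G.Adj c w ∧ w ≠ h} := by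
    ext w
    simp only [Set.mem_ofPred_eq, sup_edge_adj]
    constructor
    · rintro ⟨h1 | ⟨⟨rfl, _⟩ | ⟨_, rfl⟩, _⟩, h2⟩
      · exact ⟨h1, h2⟩
      · exact absurd rfl hc
      · exact absurd rfl h2
    · rintro ⟨h1, h2⟩
      exact ⟨Or.inl h1, h2⟩
  rw [this]
  exact hh c hc

omit [Finite V] in
lemma nbh_sup_edge {G : SimpleGraph V} {h y : V} (hy : y ≠ h) :
    nbh (G ⊔ edge h y) h = insert y (nbh G h) := by
  ext w
  simp only [nbh, Set.mem_ofPred_eq, sup_edge_adj, Set.mem_insert_iff]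
  constructor
  · rintro (h1 | ⟨⟨_, rfl⟩ | ⟨rfl, _⟩, _⟩)
    · right; exact h1
    · left; rfl
    · exact absurd rfl hy
  · intro h1
    rcases h1 with h1 | h1
    · right; subst h1; simpa using hy.symm
    · left; exact h1

omit [Finite V] in
/-- Adding a new edge at `h` can be undone. -/
lemma sup_edge_injective {G G' : SimpleGraph V} {h y : V} (h1 : ¬ G.Adj h y) (h2 : ¬ G'.Adj h y)
    (heq : G ⊔ edge h y = G' ⊔ edge h y) : G = G' := by
  have e1 := G.sdiff_edge h1
  have e2 := G'.sdiff_edge h2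
  rw [← e1, ← e2]
  have := congrArg (· \ edge h y) heq
  simpa only [sup_sdiff_right_self] using this

end Pool.Agent.Lib.MP_e761a2_pr
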