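import Mathlib
import Pool.Agent.Lib.MP_e761a2_pr.Hub

/-!
# Double counting
-/

namespace Pool.Agent.Lib.MP_e761a2_pr

open SimpleGraph

section fiber

variable {α β : Type*} [Finite α] [Finite β]

lemma ncard_fiber_eq_sum (P : Set α) [Fintype P] (F : α → Set β) :
    {x : α × β | x.1 ∈ P ∧ x.2 ∈ F x.1}.ncard = ∑ p : P, (F p).ncard := by
  classical
  have e : {x : α × β | x.1 ∈ P ∧ x.2 ∈ F x.1} ≃ Σ p : P, F p :=
    { toFun := fun x => ⟨⟨x.1.1, x.2.1⟩, ⟨x.1.2, x.2.2⟩⟩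
      invFun := fun y => ⟨(y.1.1, y.2.1), ⟨y.1.2, y.2.2⟩⟩
      left_inv := fun x => rfl
      right_inv := fun y => rfl }
  rw [← Nat.card_coe_set_eq, Nat.card_congr e, Nat.card_sigma]
  rfl

lemma ncard_fiber_le (P : Set α) (F : α → Set β) (m : ℕ) (h : ∀ p ∈ P, (F p).ncard ≤ m) :
    {x : α × β | x.1 ∈ P ∧ x.2 ∈ F x.1}.ncard ≤ P.ncard * m := by
  have := Fintype.ofFinite P
  rw [ncard_fiber_eq_sum P F]
  calc ∑ p : P, (F p).ncard ≤ ∑ p : P, m := Finset.sum_le_sum fun p _ => h p p.2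
    _ = P.ncard * m := by
      rw [Finset.sum_const, Finset.card_univ, smul_eq_mul, ← Nat.card_eq_fintype_card,
        Nat.card_coe_set_eq]

lemma le_ncard_fiber (P : Set α) (F : α → Set β) (m : ℕ) (h : ∀ p ∈ P, m ≤ (F p).ncard) :
    P.ncard * m ≤ {x : α × β | x.1 ∈ P ∧ x.2 ∈ F x.1}.ncard := by
  have := Fintype.ofFinite P
  rw [ncard_fiber_eq_sum P F]
  calc P.ncard * m = ∑ p : P, m := by
        rw [Finset.sum_const, Finset.card_univ, smul_eq_mul, ← Nat.card_eq_fintype_card,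
          Nat.card_coe_set_eq]
    _ ≤ ∑ p : P, (F p).ncard := Finset.sum_le_sum fun p _ => h p p.2

end fiber

/-- Connected graphs on `Fin n` with a distinguished hub of degree `d`. -/
def HubSet (n d : ℕ) : Set (SimpleGraph (Fin n) × Fin n) :=
  {x | x.1.Connected ∧ IsHub x.1 x.2 ∧ (nbh x.1 x.2).ncard = d}

lemma hubSet_step (n d : ℕ) :
    (HubSet n d).ncard * (n - (d + 1)) ≤ (HubSet n (d + 1)).ncard * (d + 1) := by
  classical
  have h1 : (HubSet n d).ncard * (n - (d + 1)) ≤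
      {x : (SimpleGraph (Fin n) × Fin n) × Fin n | x.1 ∈ HubSet n d ∧
        x.2 ∈ (insert x.1.2 (nbh x.1.1 x.1.2))ᶜ}.ncard := by
    refine le_ncard_fiber (HubSet n d) (fun p => (insert p.2 (nbh p.1 p.2))ᶜ) _ ?_
    intro p hp
    have h2 := Set.ncard_add_ncard_compl (insert p.2 (nbh p.1 p.2))
    have h3 := Set.ncard_insert_le p.2 (nbh p.1 p.2)
    rw [hp.2.2] at h3
    rw [Nat.card_eq_fintype_card, Fintype.card_fin] at h2
    omega
  have h2 : {x : (SimpleGraph (Fin n) × Fin n) × Fin n | x.1 ∈ HubSet n (d + 1) ∧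
        x.2 ∈ nbh x.1.1 x.1.2}.ncard ≤ (HubSet n (d + 1)).ncard * (d + 1) := by
    refine ncard_fiber_le (HubSet n (d + 1)) (fun p => nbh p.1 p.2) _ ?_
    intro p hp
    exact hp.2.2.le
  refine h1.trans (le_trans ?_ h2)
  refine Set.ncard_le_ncard_of_injOn
    (fun x => ((x.1.1 ⊔ edge x.1.2 x.2, x.1.2), x.2)) ?_ ?_ (Set.toFinite _)
  · rintro ⟨⟨G, h⟩, y⟩ ⟨⟨hc, hh, hd⟩, hy⟩
    simp only [Set.mem_compl_iff, Set.mem_insert_iff, not_or] at hy hc hh hd
    obtain ⟨hy1, hy2⟩ := hy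
    refine ⟨⟨?_, hh.sup_edge y, ?_⟩, ?_⟩
    · exact hc.mono le_sup_left
    · simp only
      rw [nbh_sup_edge hy1, Set.ncard_insert_of_notMem hy2 (Set.toFinite _), hd]
    · simp only
      rw [nbh_sup_edge hy1]
      exact Set.mem_insert _ _
  · rintro ⟨⟨G, h⟩, y⟩ ⟨_, hy⟩ ⟨⟨G', h'⟩, y'⟩ ⟨_, hy'⟩ heq
    simp only [Prod.mk.injEq] at heq
    obtain ⟨⟨h1, rfl⟩, rfl⟩ := heq
    simp only [Set.mem_compl_iff, Set.mem_insert_iff, not_or] at hy hy'
    rw [sup_edge_injective hy.2 hy'.2 h1]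

/-- Iterated version: many hubs of large degree. -/
lemma hubSet_iter (n D k d : ℕ) (hd : d + k ≤ D) :
    (HubSet n d).ncard * (n - D) ^ k ≤ (HubSet n (d + k)).ncard * D ^ k := by
  induction k with
  | zero => simp
  | succ k ih =>
    have ih' := ih (by omega)
    have hstep := hubSet_step n (d + k)
    calc (HubSet n d).ncard * (n - D) ^ (k + 1)
        = ((HubSet n d).ncard * (n - D) ^ k) * (n - D) := by ring
      _ ≤ ((HubSet n (d + k)).ncard * D ^ k) * (n - D) := Nat.mul_le_mul_right _ ih'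
      _ = ((HubSet n (d + k)).ncard * (n - D)) * D ^ k := by ring
      _ ≤ ((HubSet n (d + k)).ncard * (n - (d + k + 1))) * D ^ k := by
          apply Nat.mul_le_mul_right
          apply Nat.mul_le_mul_left
          omega
      _ ≤ ((HubSet n (d + k + 1)).ncard * (d + k + 1)) * D ^ k := Nat.mul_le_mul_right _ hstep
      _ ≤ ((HubSet n (d + k + 1)).ncard * D) * D ^ k := by
          apply Nat.mul_le_mul_right
          apply Nat.mul_le_mul_left
          omega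
      _ = (HubSet n (d + (k + 1))).ncard * D ^ (k + 1) := by
          rw [pow_succ, ← add_assoc]; ring

end Pool.Agent.Lib.MP_e761a2_pr
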