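import Mathlib
import Pool.Agent.Lib.MP_e761a2_pr.Count

/-!
# Collapsing a claw to a hub
-/

namespace Pool.Agent.Lib.MP_e761a2_pr

open SimpleGraph

variable {V : Type*}

/-- All claws of `G` meet the range of `w`. -/
def Hits (G : SimpleGraph V) (w : Fin 4 → V) : Prop :=
  ∀ v, v ∉ Set.range w → {u | G.Adj v u ∧ u ∉ Set.range w}.ncard ≤ 2

/-- Move all edges leaving the range of `w` to `w 0`, and make the other `w i` leaves at `w 0`. -/
def collapse (G : SimpleGraph V) (w : Fin 4 → V) : SimpleGraph V where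
  Adj u v := u ≠ v ∧ ((u ∉ Set.range w ∧ v ∉ Set.range w ∧ G.Adj u v) ∨
    (u = w 0 ∧ (v ∈ Set.range w ∨ ∃ i, G.Adj (w i) v)) ∨
    (v = w 0 ∧ (u ∈ Set.range w ∨ ∃ i, G.Adj (w i) u)))
  symm := ⟨by
    rintro u v ⟨h, h1 | h1 | h1⟩
    · exact ⟨h.symm, Or.inl ⟨h1.2.1, h1.1, h1.2.2.symm⟩⟩
    · exact ⟨h.symm, Or.inr (Or.inr h1)⟩
    · exact ⟨h.symm, Or.inr (Or.inl h1)⟩⟩
  loopless := ⟨fun u h => h.1 rfl⟩

lemma collapse_adj (G : SimpleGraph V) (w : Fin 4 → V) (u v : V) :
    (collapse G w).Adj u v ↔ u ≠ v ∧ ((u ∉ Set.range w ∧ v ∉ Set.range w ∧ G.Adj u v) ∨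
    (u = w 0 ∧ (v ∈ Set.range w ∨ ∃ i, G.Adj (w i) v)) ∨
    (v = w 0 ∧ (u ∈ Set.range w ∨ ∃ i, G.Adj (w i) u))) := Iff.rfl

lemma collapse_connected {G : SimpleGraph V} (hG : G.Connected) (w : Fin 4 → V) :
    (collapse G w).Connected := by
  classical
  have hR : ∀ v, v ∈ Set.range w → (collapse G w).Reachable v (w 0) := by
    intro v hv
    by_cases h : v = w 0
    · rw [h]
    · exact SimpleGraph.Adj.reachable ⟨h, Or.inr (Or.inr ⟨rfl, Or.inl hv⟩)⟩
  have key : ∀ (u v : V) (_ : G.Walk u v), v = w 0 → (collapse G w).Reachable u (w 0) := by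
    intro u v p
    induction p with
    | nil => intro h; rw [h]
    | @cons a b c h p ih =>
      intro hc
      have ih' := ih hc
      by_cases ha : a ∈ Set.range w
      · exact hR a ha
      by_cases hb : b ∈ Set.range w
      · obtain ⟨i, hi⟩ := hb
        refine SimpleGraph.Adj.reachable ⟨?_, Or.inr (Or.inr ⟨rfl, Or.inr ⟨i, ?_⟩⟩)⟩
        · rintro rfl
          exact ha ⟨0, rfl⟩
        · rw [hi]; exact h.symm
      · refine SimpleGraph.Reachable.trans (SimpleGraph.Adj.reachable ?_) ih'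
        exact ⟨h.ne, Or.inl ⟨ha, hb, h⟩⟩
  have key' : ∀ u, (collapse G w).Reachable u (w 0) := by
    intro u
    obtain ⟨p⟩ := hG.preconnected u (w 0)
    exact key u (w 0) p rfl
  have : Nonempty V := ⟨w 0⟩
  exact ⟨fun u v => (key' u).trans (key' v).symm⟩

lemma collapse_isHub [Finite V] {G : SimpleGraph V} {w : Fin 4 → V} (hw : Hits G w) :
    IsHub (collapse G w) (w 0) := by
  intro c hc
  by_cases hcR : c ∈ Set.range w
  · have : {u | (collapse G w).Adj c u ∧ u ≠ w 0} = ∅ := by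
      ext u
      simp only [Set.mem_ofPred_eq, Set.mem_empty_iff_false, iff_false, not_and, collapse_adj]
      rintro ⟨_, h | h | h⟩ hu
      · exact h.1 hcR
      · exact hc h.1
      · exact hu h.1
    rw [this]
    simp
  · refine le_trans (Set.ncard_le_ncard ?_ (Set.toFinite _)) (hw c hcR)
    rintro u ⟨⟨_, h | h | h⟩, hu⟩
    · exact ⟨h.2.2, h.2.1⟩
    · exact absurd h.1 hc
    · exact absurd h.1 hu

lemma nbh_subset_collapse {G : SimpleGraph V} (w : Fin 4 → V) (i : Fin 4) :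
    nbh G (w i) ⊆ insert (w 0) (nbh (collapse G w) (w 0)) := by
  intro v hv
  by_cases h0 : v = w 0
  · left; exact h0
  · right
    exact ⟨fun h => h0 h.symm, Or.inr (Or.inl ⟨rfl, Or.inr ⟨i, hv⟩⟩)⟩

lemma collapse_deg [Finite V] {G : SimpleGraph V} (w : Fin 4 → V) {K : ℕ}
    (hK : ∀ v, (nbh G v).ncard < K) :
    (nbh (collapse G w) (w 0)).ncard ≤ 4 + 4 * K := by
  classical
  have hsub : nbh (collapse G w) (w 0) ⊆ Set.range w ∪ ⋃ i : Fin 4, nbh G (w i) := by
    rintro v ⟨hne, h | h | h⟩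
    · exact absurd ⟨0, rfl⟩ h.1
    · rcases h.2 with h | ⟨i, h⟩
      · left; exact h
      · right; exact Set.mem_iUnion.2 ⟨i, h⟩
    · exact absurd h.1.symm hne
  have h1 : (Set.range w).ncard ≤ 4 := by
    rw [← Set.image_univ]
    refine (Set.ncard_image_le (Set.toFinite _)).trans ?_
    simp [Set.ncard_univ]
  have h2 : (⋃ i : Fin 4, nbh G (w i)).ncard ≤ 4 * K := by
    have : (⋃ i : Fin 4, nbh G (w i)) = nbh G (w 0) ∪ (nbh G (w 1) ∪ (nbh G (w 2) ∪
        nbh G (w 3))) := by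
      ext v
      simp only [Set.mem_iUnion, Set.mem_union]
      constructor
      · rintro ⟨i, hi⟩
        fin_cases i
        · left; exact hi
        · right; left; exact hi
        · right; right; left; exact hi
        · right; right; right; exact hi
      · rintro (h | h | h | h)
        · exact ⟨0, h⟩
        · exact ⟨1, h⟩
        · exact ⟨2, h⟩
        · exact ⟨3, h⟩
    rw [this]
    have e1 := Set.ncard_union_le (nbh G (w 0)) (nbh G (w 1) ∪ (nbh G (w 2) ∪ nbh G (w 3)))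
    have e2 := Set.ncard_union_le (nbh G (w 1)) (nbh G (w 2) ∪ nbh G (w 3))
    have e3 := Set.ncard_union_le (nbh G (w 2)) (nbh G (w 3))
    have f0 := hK (w 0)
    have f1 := hK (w 1)
    have f2 := hK (w 2)
    have f3 := hK (w 3)
    omega
  have h3 := Set.ncard_le_ncard hsub (Set.toFinite _)
  have h4 := Set.ncard_union_le (Set.range w) (⋃ i : Fin 4, nbh G (w i))
  omega

lemma collapse_injective {G G' : SimpleGraph V} {w : Fin 4 → V}
    (h : collapse G w = collapse G' w) (hn : ∀ i, nbh G (w i) = nbh G' (w i)) : G = G' := by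
  have hw : ∀ i v, G.Adj (w i) v ↔ G'.Adj (w i) v := by
    intro i v
    have := hn i
    exact Set.ext_iff.1 this v
  ext u v
  by_cases hu : u ∈ Set.range w
  · obtain ⟨i, rfl⟩ := hu
    exact hw i v
  by_cases hv : v ∈ Set.range w
  · obtain ⟨i, rfl⟩ := hv
    rw [G.adj_comm, G'.adj_comm]
    exact hw i u
  have hu0 : u ≠ w 0 := fun h => hu ⟨0, h.symm⟩
  have hv0 : v ≠ w 0 := fun h => hv ⟨0, h.symm⟩
  have e : ∀ G'' : SimpleGraph V, (collapse G'' w).Adj u v ↔ G''.Adj u v := by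
    intro G''
    rw [collapse_adj]
    constructor
    · rintro ⟨_, h | h | h⟩
      · exact h.2.2
      · exact absurd h.1 hu0
      · exact absurd h.1 hv0
    · intro h
      exact ⟨h.ne, Or.inl ⟨hu, hv, h⟩⟩
  rw [← e G, ← e G', h]

/-- There is a set of four vertices that meets all claws. -/
lemma exists_hits {n : ℕ} (hn : 4 ≤ n) {G : SimpleGraph (Fin n)} (hG : ¬ TwoClaws G) :
    ∃ w : Fin 4 → Fin n, Hits G w := by
  classical
  by_cases hc : ∃ c, 3 ≤ (nbh G c).ncard
  · obtain ⟨c, hc⟩ := hc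
    obtain ⟨a, b, d, ha, hb, hd, hab, had, hbd⟩ := (Set.two_lt_ncard_iff (Set.toFinite _)).1 hc
    refine ⟨![c, a, b, d], ?_⟩
    intro v hv
    by_contra hcon
    push Not at hcon
    obtain ⟨x, y, z, hx, hy, hz, hxy, hxz, hyz⟩ := (Set.two_lt_ncard_iff (Set.toFinite _)).1 hcon
    apply hG
    have hr : ∀ u, u ∉ Set.range ![c, a, b, d] ↔ (u ≠ c ∧ u ≠ a ∧ u ≠ b ∧ u ≠ d) := by
      intro u
      simp only [Matrix.range_cons, Matrix.range_empty, Set.union_empty, Set.mem_union,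
        Set.mem_singleton_iff, not_or]
    rw [hr] at hv
    obtain ⟨hvc, hva, hvb, hvd⟩ := hv
    obtain ⟨hvx, hx⟩ := hx
    obtain ⟨hvy, hy⟩ := hy
    obtain ⟨hvz, hz⟩ := hz
    rw [hr] at hx hy hz
    obtain ⟨hxc, hxa, hxb, hxd⟩ := hx
    obtain ⟨hyc, hya, hyb, hyd⟩ := hy
    obtain ⟨hzc, hza, hzb, hzd⟩ := hz
    simp only [nbh, Set.mem_ofPred_eq] at ha hb hd
    have e1 := ha.ne
    have e2 := hb.ne
    have e3 := hd.ne
    have e4 := hvx.ne
    have e5 := hvy.ne
    have e6 := hvz.ne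
    refine ⟨![c, a, b, d, v, x, y, z], ?_, ?_⟩
    · intro i j hij
      clear hr hcon hG hc
      fin_cases i <;> fin_cases j <;> simp_all [eq_comm]
    · intro i j hij
      rcases hij with ⟨rfl, rfl | rfl | rfl⟩ | ⟨rfl, rfl | rfl | rfl⟩ | ⟨rfl, rfl | rfl | rfl⟩ |
        ⟨rfl, rfl | rfl | rfl⟩
      · exact ha
      · exact hb
      · exact hd
      · exact ha.symm
      · exact hb.symm
      · exact hd.symm
      · exact hvx
      · exact hvy
      · exact hvz
      · exact hvx.symm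
      · exact hvy.symm
      · exact hvz.symm
  · push Not at hc
    refine ⟨fun i => Fin.castLE hn i, ?_⟩
    intro v _
    have h1 := hc v
    have h2 : {u | G.Adj v u ∧ u ∉ Set.range fun i => Fin.castLE hn i} ⊆ nbh G v :=
      fun u hu => hu.1
    have h3 := Set.ncard_le_ncard h2 (Set.toFinite _)
    omega

/-- Connected graphs without two disjoint claws all of whose degrees are less than `K`. -/
def SmallSet (n K : ℕ) : Set (SimpleGraph (Fin n)) :=
  {G | G.Connected ∧ ¬ TwoClaws G ∧ ∀ v, (nbh G v).ncard < K}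

/-- Connected graphs with a hub of degree at most `D`. -/
def HubLe (n D : ℕ) : Set (SimpleGraph (Fin n) × Fin n) :=
  {x | x.1.Connected ∧ IsHub x.1 x.2 ∧ (nbh x.1 x.2).ncard ≤ D}

lemma smallSet_ncard_le (n K : ℕ) (hn : 4 ≤ n) :
    (SmallSet n K).ncard ≤
      (n ^ 4 * (HubLe n (4 + 4 * K)).ncard) * (2 ^ (4 + 4 * K + 1)) ^ 4 := by
  classical
  set D := 4 + 4 * K with hD
  have hex : ∀ G : SimpleGraph (Fin n), ∃ w : Fin 4 → Fin n, G ∈ SmallSet n K → Hits G w := by
    intro G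
    by_cases h : G ∈ SmallSet n K
    · obtain ⟨w, hw⟩ := exists_hits hn h.2.1
      exact ⟨w, fun _ => hw⟩
    · exact ⟨fun _ => ⟨0, by omega⟩, fun h' => absurd h' h⟩
  choose w hw using hex
  let P : Set ((Fin 4 → Fin n) × (SimpleGraph (Fin n) × Fin n)) := Set.univ ×ˢ HubLe n D
  let F : ((Fin 4 → Fin n) × (SimpleGraph (Fin n) × Fin n)) → Set (Fin 4 → Set (Fin n)) :=
    fun p => {S | ∀ i, S i ⊆ insert p.2.2 (nbh p.2.1 p.2.2)}
  have hP : P.ncard = n ^ 4 * (HubLe n D).ncard := by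
    simp only [P]
    rw [Set.ncard_prod, Set.ncard_univ]
    simp [Nat.card_eq_fintype_card]
  have hF : ∀ p ∈ P, (F p).ncard ≤ (2 ^ (D + 1)) ^ 4 := by
    rintro ⟨w', G', x'⟩ ⟨_, hp⟩
    have h1 : (insert x' (nbh G' x')).ncard ≤ D + 1 := by
      have := Set.ncard_insert_le x' (nbh G' x')
      have := hp.2.2
      simp only at this
      omega
    have e : F (w', G', x') ≃ (Fin 4 → (𝒫 (insert x' (nbh G' x')) : Set (Set (Fin n)))) :=
      { toFun := fun S i => ⟨S.1 i, S.2 i⟩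
        invFun := fun T => ⟨fun i => (T i).1, fun i => (T i).2⟩
        left_inv := fun _ => rfl
        right_inv := fun _ => rfl }
    rw [← Nat.card_coe_set_eq, Nat.card_congr e, Nat.card_pi]
    simp only [Nat.card_coe_set_eq, Finset.prod_const, Finset.card_univ, Fintype.card_fin]
    rw [Set.ncard_powerset _ (Set.toFinite _)]
    apply Nat.pow_le_pow_left
    exact Nat.pow_le_pow_right (by norm_num) h1
  rw [← hP]
  refine le_trans ?_ (ncard_fiber_le P F _ hF)
  refine Set.ncard_le_ncard_of_injOn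
    (fun G => ((w G, (collapse G (w G), w G 0)), fun i => nbh G (w G i))) ?_ ?_ (Set.toFinite _)
  · intro G hG
    refine ⟨⟨Set.mem_univ _, collapse_connected hG.1 _, collapse_isHub (hw G hG), ?_⟩, ?_⟩
    · exact collapse_deg (w G) hG.2.2
    · intro i
      exact nbh_subset_collapse (w G) i
  · intro G _ G' _ heq
    simp only [Prod.mk.injEq] at heq
    obtain ⟨⟨h1, h2, _⟩, h4⟩ := heq
    rw [← h1] at h2 h4
    exact collapse_injective h2 (fun i => congrFun h4 i)

end Pool.Agent.Lib.MP_e761a2_pr
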