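import Mathlib
import Pool.Agent.Lib.MP_e761a2_pr.Collapse

/-!
# Few automorphisms
-/

namespace Pool.Agent.Lib.MP_e761a2_pr

open SimpleGraph

/-- The automorphisms of `G`. -/
def Aut {V : Type*} (G : SimpleGraph V) : Set (Equiv.Perm V) :=
  {ρ | ∀ u v, G.Adj (ρ u) (ρ v) ↔ G.Adj u v}

/-- The neighbours of the set `A`. -/
def nbhs {V : Type*} (G : SimpleGraph V) (A : Set V) : Set V := {u | ∃ v ∈ A, G.Adj v u}

lemma nbhs_ncard_le {V : Type*} [Finite V] {G : SimpleGraph V} {K : ℕ}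
    (hK : ∀ v, (nbh G v).ncard < K) (A : Set V) : (nbhs G A).ncard ≤ A.ncard * K := by
  have h1 := ncard_fiber_le A (fun v => nbh G v) K (fun p _ => (hK p).le)
  have h2 : nbhs G A = Prod.snd '' {x : V × V | x.1 ∈ A ∧ x.2 ∈ nbh G x.1} := by
    ext u
    constructor
    · rintro ⟨v, hv, hvu⟩
      exact ⟨(v, u), ⟨hv, hvu⟩, rfl⟩
    · rintro ⟨⟨v, u'⟩, ⟨hv, hvu⟩, rfl⟩
      exact ⟨v, hv, hvu⟩
  rw [h2]
  exact (Set.ncard_image_le (Set.toFinite _)).trans h1

/-- The determining set. -/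
def detSet {V : Type*} (G : SimpleGraph V) (w : Fin 4 → V) : Set V :=
  Set.range w ∪ (nbhs G (Set.range w) ∪ nbhs G (nbhs G (Set.range w)))

lemma detSet_ncard_le {V : Type*} [Finite V] {G : SimpleGraph V} {K : ℕ}
    (hK : ∀ v, (nbh G v).ncard < K) (w : Fin 4 → V) :
    (detSet G w).ncard ≤ 4 + (4 * K + 4 * K * K) := by
  have h1 : (Set.range w).ncard ≤ 4 := by
    rw [← Set.image_univ]
    refine (Set.ncard_image_le (Set.toFinite _)).trans ?_
    simp [Set.ncard_univ]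
  have h2 := nbhs_ncard_le hK (Set.range w)
  have h3 := nbhs_ncard_le hK (nbhs G (Set.range w))
  have h4 : (Set.range w).ncard * K ≤ 4 * K := Nat.mul_le_mul_right _ h1
  have h5 : (nbhs G (Set.range w)).ncard * K ≤ 4 * K * K := Nat.mul_le_mul_right _ (h2.trans h4)
  have e1 := Set.ncard_union_le (Set.range w)
    (nbhs G (Set.range w) ∪ nbhs G (nbhs G (Set.range w)))
  have e2 := Set.ncard_union_le (nbhs G (Set.range w)) (nbhs G (nbhs G (Set.range w)))
  unfold detSet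
  omega

lemma fix_all {V : Type*} [Finite V] {G : SimpleGraph V} (hG : G.Connected) {w : Fin 4 → V}
    (hw : Hits G w) {ρ : Equiv.Perm V} (hρ : ρ ∈ Aut G) (hfix : ∀ v ∈ detSet G w, ρ v = v) :
    ρ = 1 := by
  classical
  set Q : V → Prop := fun v => ρ v = v ∧ ∀ u, G.Adj v u → ρ u = u with hQ
  have hR : ∀ v ∈ Set.range w, Q v := by
    intro v hv
    exact ⟨hfix v (Or.inl hv), fun u hu => hfix u (Or.inr (Or.inl ⟨v, hv, hu⟩))⟩
  have hN : ∀ v ∈ nbhs G (Set.range w), Q v := by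
    intro v hv
    exact ⟨hfix v (Or.inr (Or.inl hv)), fun u hu => hfix u (Or.inr (Or.inr ⟨v, hv, hu⟩))⟩
  have hstep : ∀ v v', Q v → G.Adj v v' → Q v' := by
    intro v v' hv hvv'
    by_cases h1 : v' ∈ Set.range w
    · exact hR _ h1
    by_cases h2 : v ∈ Set.range w
    · exact hN _ ⟨v, h2, hvv'⟩
    refine ⟨hv.2 _ hvv', ?_⟩
    intro u hu
    by_cases h3 : u ∈ Set.range w
    · exact (hR _ h3).1
    by_cases h4 : u = v
    · rw [h4]; exact hv.1
    -- both `u` and `ρ u` are neighbours of `v'` outside the range of `w` and different from `v`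
    have hcard := hw v' h1
    by_contra hne
    have h5 : 2 < {u | G.Adj v' u ∧ u ∉ Set.range w}.ncard := by
      rw [Set.two_lt_ncard_iff (Set.toFinite _)]
      refine ⟨v, u, ρ u, ⟨hvv'.symm, h2⟩, ⟨hu, h3⟩, ⟨?_, ?_⟩, Ne.symm h4, ?_, Ne.symm hne⟩
      · have := (hρ v' u).2 hu
        rwa [hv.2 _ hvv'] at this
      · rintro ⟨i, hi⟩
        have h6 : ρ (w i) = w i := (hR _ ⟨i, rfl⟩).1
        have h7 : ρ u = ρ (w i) := by rw [h6]; exact hi.symm
        exact h3 ⟨i, (ρ.injective h7).symm⟩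
      · intro h8
        have h9 : ρ u = ρ v := by rw [hv.1]; exact h8.symm
        exact h4 (ρ.injective h9)
    omega
  have hall : ∀ (u v : V) (_ : G.Walk u v), Q u → Q v := by
    intro u v p
    induction p with
    | nil => exact id
    | cons h p ih => exact fun hq => ih (hstep _ _ hq h)
  ext v
  obtain ⟨p⟩ := hG.preconnected (w 0) v
  rw [(hall _ _ p (hR _ ⟨0, rfl⟩)).1]
  rfl

lemma aut_ncard_le {n K : ℕ} (hn : 4 ≤ n) {G : SimpleGraph (Fin n)} (hG : G ∈ SmallSet n K) :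
    (Aut G).ncard ≤ n ^ (4 + (4 * K + 4 * K * K)) := by
  classical
  obtain ⟨w, hw⟩ := exists_hits hn hG.2.1
  have h1 : (Aut G).ncard ≤ (Set.univ : Set (detSet G w → Fin n)).ncard := by
    refine Set.ncard_le_ncard_of_injOn (fun ρ v => ρ v) (fun _ _ => Set.mem_univ _) ?_
      (Set.toFinite _)
    intro ρ hρ ρ' hρ' heq
    have h2 : ρ'⁻¹ * ρ = 1 := by
      apply fix_all hG.1 hw
      · intro u v
        have e1 : G.Adj ((ρ'⁻¹ * ρ) u) ((ρ'⁻¹ * ρ) v) ↔
            G.Adj (ρ' ((ρ'⁻¹ * ρ) u)) (ρ' ((ρ'⁻¹ * ρ) v)) := (hρ' _ _).symm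
        rw [e1]
        simp only [Equiv.Perm.mul_apply, Equiv.Perm.coe_inv, Equiv.apply_symm_apply]
        exact hρ u v
      · intro v hv
        have h3 : ρ v = ρ' v := congrFun heq ⟨v, hv⟩
        rw [Equiv.Perm.mul_apply, h3]; simp
    exact (inv_mul_eq_one.1 h2).symm
  refine h1.trans ?_
  rw [Set.ncard_univ, Nat.card_fun, Nat.card_eq_fintype_card (α := Fin n), Fintype.card_fin,
    Nat.card_coe_set_eq]
  exact Nat.pow_le_pow_right (by omega) (detSet_ncard_le hG.2.2 w)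

end Pool.Agent.Lib.MP_e761a2_pr
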