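import Mathlib
import Pool.Agent.Lib.MP_e761a2_pr.Stab

/-!
# Counting rooted graphs up to relabelling
-/

namespace Pool.Agent.Lib.MP_e761a2_pr

open SimpleGraph

variable {n : ℕ}

/-- Relabelling of a rooted graph. -/
def act (σ : Equiv.Perm (Fin n)) (x : SimpleGraph (Fin n) × Fin n) :
    SimpleGraph (Fin n) × Fin n := (x.1.comap σ.symm, σ x.2)

lemma act_adj (σ : Equiv.Perm (Fin n)) (x : SimpleGraph (Fin n) × Fin n) (u v : Fin n) :
    (act σ x).1.Adj u v ↔ x.1.Adj (σ.symm u) (σ.symm v) := Iff.rfl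

lemma act_adj' (σ : Equiv.Perm (Fin n)) (x : SimpleGraph (Fin n) × Fin n) (u v : Fin n) :
    (act σ x).1.Adj (σ u) (σ v) ↔ x.1.Adj u v := by
  rw [act_adj, Equiv.symm_apply_apply, Equiv.symm_apply_apply]

lemma act_one (x : SimpleGraph (Fin n) × Fin n) : act 1 x = x := by
  refine Prod.ext ?_ rfl
  ext u v
  exact Iff.rfl

lemma act_mul (σ τ : Equiv.Perm (Fin n)) (x : SimpleGraph (Fin n) × Fin n) :
    act (σ * τ) x = act σ (act τ x) := by
  refine Prod.ext ?_ rfl
  ext u v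
  exact Iff.rfl

lemma act_connected {σ : Equiv.Perm (Fin n)} {x : SimpleGraph (Fin n) × Fin n}
    (h : x.1.Connected) : (act σ x).1.Connected := by
  have e : x.1 ≃g (act σ x).1 := ⟨σ, fun {u v} => act_adj' σ x u v⟩
  exact e.connected_iff.1 h

lemma act_not_twoClaws {σ : Equiv.Perm (Fin n)} {x : SimpleGraph (Fin n) × Fin n}
    (h : ¬ TwoClaws x.1) : ¬ TwoClaws (act σ x).1 := by
  rintro ⟨f, hf, hadj⟩
  exact h ⟨fun i => σ.symm (f i), σ.symm.injective.comp hf, fun a b hab => hadj a b hab⟩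

lemma act_nbh (σ : Equiv.Perm (Fin n)) (x : SimpleGraph (Fin n) × Fin n) (v : Fin n) :
    (nbh (act σ x).1 (σ v)).ncard = (nbh x.1 v).ncard := by
  have : nbh (act σ x).1 (σ v) = σ '' nbh x.1 v := by
    ext u
    constructor
    · intro hu
      refine ⟨σ.symm u, ?_, σ.apply_symm_apply u⟩
      have : (act σ x).1.Adj (σ v) u := hu
      rw [act_adj, Equiv.symm_apply_apply] at this
      exact this
    · rintro ⟨u', hu', rfl⟩
      exact (act_adj' σ x v u').2 hu'
  rw [this, Set.ncard_image_of_injective _ σ.injective]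

section
variable (Γ : Subgroup (Equiv.Perm (Fin n))) (s : Setoid (SimpleGraph (Fin n) × Fin n))
  (hs : ∀ x y, s.r x y ↔ ∃ σ ∈ Γ, act σ x = y)

include hs

lemma le_card_mul_cl (A : Set (SimpleGraph (Fin n) × Fin n)) :
    A.ncard ≤ (Quotient.mk s '' A).ncard * Nat.card Γ := by
  classical
  -- representatives
  have hrep : ∀ y : SimpleGraph (Fin n) × Fin n, ∃ σ : Γ, act σ.1 (Quotient.mk s y).out = y := by
    intro y
    have h1 : s.r (Quotient.mk s y).out y := Quotient.exact (Quotient.out_eq _)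
    obtain ⟨σ, hσ, he⟩ := (hs _ _).1 h1
    exact ⟨⟨σ, hσ⟩, he⟩
  choose τ hτ using hrep
  have : ((Quotient.mk s '' A) ×ˢ (Set.univ : Set Γ)).ncard =
      (Quotient.mk s '' A).ncard * Nat.card Γ := by
    rw [Set.ncard_prod, Set.ncard_univ]
  rw [← this]
  refine Set.ncard_le_ncard_of_injOn (fun y => (Quotient.mk s y, τ y)) ?_ ?_ (Set.toFinite _)
  · intro y hy
    exact ⟨⟨y, hy, rfl⟩, Set.mem_univ _⟩
  · intro y _ y' _ heq
    simp only [Prod.mk.injEq] at heq
    rw [← hτ y, ← hτ y', heq.1, heq.2]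

lemma card_mul_cl_le (A : Set (SimpleGraph (Fin n) × Fin n))
    (hA : ∀ x ∈ A, ∀ σ : Equiv.Perm (Fin n), act σ x ∈ A) (m : ℕ)
    (hm : ∀ x ∈ A, (Aut x.1).ncard ≤ m) :
    (Quotient.mk s '' A).ncard * Nat.card Γ ≤ A.ncard * m := by
  classical
  have hrep : ∀ y : SimpleGraph (Fin n) × Fin n, ∃ σ : Γ, act σ.1 (Quotient.mk s y).out = y := by
    intro y
    have h1 : s.r (Quotient.mk s y).out y := Quotient.exact (Quotient.out_eq _)
    obtain ⟨σ, hσ, he⟩ := (hs _ _).1 h1
    exact ⟨⟨σ, hσ⟩, he⟩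
  choose τ hτ using hrep
  have hout : ∀ q ∈ Quotient.mk s '' A, q.out ∈ A := by
    rintro q ⟨y, hy, rfl⟩
    have h1 : act (τ y).1⁻¹ y = (Quotient.mk s y).out := by
      conv_lhs => rw [← hτ y]
      rw [← act_mul, hτ y, inv_mul_cancel, act_one]
    rw [← h1]
    exact hA y hy _
  have h0 := ncard_fiber_le A (fun y => Aut (Quotient.mk s y).out.1) m (by
    intro y hy
    exact hm _ (hout _ ⟨y, hy, rfl⟩))
  have : ((Quotient.mk s '' A) ×ˢ (Set.univ : Set Γ)).ncard =
      (Quotient.mk s '' A).ncard * Nat.card Γ := by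
    rw [Set.ncard_prod, Set.ncard_univ]
  rw [← this]
  refine le_trans ?_ h0
  have hmk : ∀ (q : Quotient s) (σ : Γ), Quotient.mk s (act σ.1 q.out) = q := by
    intro q σ
    conv_rhs => rw [← Quotient.out_eq q]
    refine (Quotient.sound ?_).symm
    exact (hs _ _).2 ⟨σ.1, σ.2, rfl⟩
  refine Set.ncard_le_ncard_of_injOn
    (fun p => (act p.2.1 p.1.out, ((τ (act p.2.1 p.1.out)).1)⁻¹ * p.2.1)) ?_ ?_ (Set.toFinite _)
  · rintro ⟨q, σ⟩ ⟨hq, _⟩
    refine ⟨hA _ (hout q hq) _, ?_⟩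
    simp only
    rw [hmk]
    -- the difference is an automorphism
    have h1 : act (τ (act σ.1 q.out)).1 q.out = act σ.1 q.out := by
      have := hτ (act σ.1 q.out)
      rwa [hmk] at this
    have h2 : act ((τ (act σ.1 q.out)).1⁻¹ * σ.1) q.out = q.out := by
      generalize τ (act σ.1 q.out) = t at h1 ⊢
      rw [act_mul, ← h1, ← act_mul, inv_mul_cancel, act_one]
    intro u v
    have h3 := act_adj' ((τ (act σ.1 q.out)).1⁻¹ * σ.1) q.out u v
    rw [h2] at h3
    exact h3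
  · rintro ⟨q, σ⟩ _ ⟨q', σ'⟩ _ heq
    simp only [Prod.mk.injEq] at heq
    obtain ⟨h1, h2⟩ := heq
    rw [h1] at h2
    have h3 := mul_left_cancel h2
    have h4 : q = q' := by
      rw [← hmk q σ, ← hmk q' σ', h1]
    rw [h4, Subtype.ext h3]

/-- Rooted members with a hub of degree at least `K` adjacent to the root. -/
def NearSet (n K : ℕ) : Set (SimpleGraph (Fin n) × Fin n) :=
  {x | (x.1.Connected ∧ ¬ TwoClaws x.1) ∧ ∃ h, K ≤ (nbh x.1 h).ncard ∧ x.1.Adj x.2 h}

lemma cl_le (K : ℕ) (hK : 7 ≤ K) :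
    (Quotient.mk s '' {x | x.1.Connected ∧ ¬ TwoClaws x.1}).ncard ≤
      (Quotient.mk s '' {x | x.1 ∈ SmallSet n K}).ncard +
        3 * (Quotient.mk s '' NearSet n K).ncard := by
  classical
  set M : Set (SimpleGraph (Fin n) × Fin n) := {x | x.1.Connected ∧ ¬ TwoClaws x.1} with hM
  set A1 : Set (SimpleGraph (Fin n) × Fin n) :=
    {x | x ∈ M ∧ K ≤ (nbh x.1 x.2).ncard} with hA1
  set A3 : Set (SimpleGraph (Fin n) × Fin n) :=
    {x | x ∈ M ∧ ∃ h, K ≤ (nbh x.1 h).ncard ∧ x.2 ≠ h ∧ ¬ x.1.Adj h x.2} with hA3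
  have hcov : M ⊆ {x | x.1 ∈ SmallSet n K} ∪ (A1 ∪ (NearSet n K ∪ A3)) := by
    intro x hx
    by_cases h : ∀ v, (nbh x.1 v).ncard < K
    · left; exact ⟨hx.1, hx.2, h⟩
    · push Not at h
      obtain ⟨h, hh⟩ := h
      right
      by_cases h1 : x.2 = h
      · left; exact ⟨hx, h1 ▸ hh⟩
      right
      by_cases h2 : x.1.Adj h x.2
      · left; exact ⟨hx, h, hh, h2.symm⟩
      · right; exact ⟨hx, h, hh, h1, h2⟩
  have h1 : (Quotient.mk s '' A1).ncard ≤ (Quotient.mk s '' NearSet n K).ncard := by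
    have hrep : ∀ q : Quotient s, ∃ x : SimpleGraph (Fin n) × Fin n, ∃ y : Fin n,
        q ∈ Quotient.mk s '' A1 → (x ∈ A1 ∧ Quotient.mk s x = q ∧ x.1.Adj x.2 y) := by
      intro q
      by_cases hq : q ∈ Quotient.mk s '' A1
      · obtain ⟨x, hx, rfl⟩ := hq
        have : (nbh x.1 x.2).Nonempty := by
          rw [← Set.ncard_pos (Set.toFinite _)]
          have := hx.2
          omega
        obtain ⟨y, hy⟩ := this
        exact ⟨x, y, fun _ => ⟨hx, rfl, hy⟩⟩
      · obtain ⟨x, rfl⟩ := Quotient.exists_rep q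
        exact ⟨x, x.2, fun h => absurd h hq⟩
    choose rep y hrep using hrep
    refine Set.ncard_le_ncard_of_injOn (fun q => Quotient.mk s ((rep q).1, y q)) ?_ ?_
      (Set.toFinite _)
    · intro q hq
      obtain ⟨⟨h1, h2⟩, h3, h4⟩ := hrep q hq
      exact ⟨((rep q).1, y q), ⟨h1, (rep q).2, h2, h4.symm⟩, rfl⟩
    · intro q hq q' hq' heq
      obtain ⟨⟨h1, h2⟩, h3, h4⟩ := hrep q hq
      obtain ⟨⟨h1', h2'⟩, h3', h4'⟩ := hrep q' hq'
      obtain ⟨σ, hσ, he⟩ := (hs _ _).1 (Quotient.exact heq)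
      have e1 : (act σ (rep q)).1 = (rep q').1 := by
        have := congrArg Prod.fst he
        exact this
      have hub' : IsHub (rep q').1 (rep q').2 := isHub_of_deg h1'.2 (by omega)
      have e2 : σ (rep q).2 = (rep q').2 := by
        apply hub'.unique
        rw [← e1, act_nbh]
        omega
      rw [← h3, ← h3']
      apply Quotient.sound
      exact (hs _ _).2 ⟨σ, hσ, Prod.ext e1 e2⟩
  have h3 : (Quotient.mk s '' A3).ncard ≤ (Quotient.mk s '' NearSet n K).ncard := by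
    have hrep : ∀ q : Quotient s, ∃ x : SimpleGraph (Fin n) × Fin n, ∃ h : Fin n,
        q ∈ Quotient.mk s '' A3 → (x ∈ M ∧ Quotient.mk s x = q ∧
          K ≤ (nbh x.1 h).ncard ∧ x.2 ≠ h ∧ ¬ x.1.Adj h x.2) := by
      intro q
      by_cases hq : q ∈ Quotient.mk s '' A3
      · obtain ⟨x, ⟨hx, h, hh⟩, rfl⟩ := hq
        exact ⟨x, h, fun _ => ⟨hx, rfl, hh⟩⟩
      · obtain ⟨x, rfl⟩ := Quotient.exists_rep q
        exact ⟨x, x.2, fun h => absurd h hq⟩
    choose rep h hrep using hrep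
    refine Set.ncard_le_ncard_of_injOn
      (fun q => Quotient.mk s ((rep q).1 ⊔ edge (h q) (rep q).2, (rep q).2)) ?_ ?_
      (Set.toFinite _)
    · intro q hq
      obtain ⟨h1, h2, h3, h4, h5⟩ := hrep q hq
      refine ⟨((rep q).1 ⊔ edge (h q) (rep q).2, (rep q).2), ⟨⟨?_, ?_⟩, h q, ?_, ?_⟩, rfl⟩
      · exact h1.1.mono le_sup_left
      · exact not_twoClaws_of_isHub ((isHub_of_deg h1.2 (by omega)).sup_edge _)
      · simp only
        rw [nbh_sup_edge h4]
        exact h3.trans (Set.ncard_le_ncard (Set.subset_insert _ _) (Set.toFinite _))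
      · simp only
        rw [sup_edge_adj]
        right
        exact ⟨Or.inr ⟨rfl, rfl⟩, h4⟩
    · intro q hq q' hq' heq
      obtain ⟨h1, h2, h3, h4, h5⟩ := hrep q hq
      obtain ⟨h1', h2', h3', h4', h5'⟩ := hrep q' hq'
      obtain ⟨σ, hσ, he⟩ := (hs _ _).1 (Quotient.exact heq)
      have e1 : (act σ ((rep q).1 ⊔ edge (h q) (rep q).2, (rep q).2)).1 =
        (rep q').1 ⊔ edge (h q') (rep q').2 := congrArg Prod.fst he
      have e2 : σ (rep q).2 = (rep q').2 := congrArg Prod.snd he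
      have hub' : IsHub ((rep q').1 ⊔ edge (h q') (rep q').2) (h q') :=
        (isHub_of_deg h1'.2 (by omega)).sup_edge _
      have e3 : σ (h q) = h q' := by
        apply hub'.unique
        rw [← e1, act_nbh]
        simp only
        rw [nbh_sup_edge h4]
        have := Set.ncard_le_ncard (Set.subset_insert (rep q).2 (nbh (rep q).1 (h q)))
          (Set.toFinite _)
        omega
      have e4 : (act σ ((rep q).1 ⊔ edge (h q) (rep q).2, (rep q).2)).1 =
          (act σ (rep q)).1 ⊔ edge (h q') (rep q').2 := by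
        ext u v
        rw [act_adj, sup_edge_adj, sup_edge_adj, act_adj, ← e2, ← e3]
        simp only [Equiv.symm_apply_eq, ne_eq, EmbeddingLike.apply_eq_iff_eq]
      have e5 : (act σ (rep q)).1 = (rep q').1 := by
        rw [e4] at e1
        refine sup_edge_injective ?_ h5' e1
        rw [← e3, ← e2, act_adj']
        exact h5
      rw [← h2, ← h2']
      apply Quotient.sound
      exact (hs _ _).2 ⟨σ, hσ, Prod.ext e5 e2⟩
  have h4 : (Quotient.mk s '' M).ncard ≤ (Quotient.mk s '' {x | x.1 ∈ SmallSet n K}).ncard +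
      ((Quotient.mk s '' A1).ncard + ((Quotient.mk s '' NearSet n K).ncard +
        (Quotient.mk s '' A3).ncard)) := by
    refine (Set.ncard_le_ncard (Set.image_mono hcov) (Set.toFinite _)).trans ?_
    rw [Set.image_union, Set.image_union, Set.image_union]
    refine (Set.ncard_union_le _ _).trans (Nat.add_le_add_left ?_ _)
    refine (Set.ncard_union_le _ _).trans (Nat.add_le_add_left ?_ _)
    exact Set.ncard_union_le _ _
  omega

end

end Pool.Agent.Lib.MP_e761a2_pr
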