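import Mathlib
import Pool.Agent.Lib.MP_e761a2_pr.Orbits

/-!
# No local limit
-/

namespace Pool.Agent.Lib.MP_e761a2_pr

open SimpleGraph Filter Topology

/-- Rooted connected graphs on `Fin n` without two disjoint claws. -/
def MSet (n : ℕ) : Set (SimpleGraph (Fin n) × Fin n) := {x | x.1.Connected ∧ ¬ TwoClaws x.1}

/-- Connected graphs on `Fin n` without two disjoint claws. -/
def GSet (n : ℕ) : Set (SimpleGraph (Fin n)) := {G | G.Connected ∧ ¬ TwoClaws G}

lemma ncard_rooted (n : ℕ) (A : Set (SimpleGraph (Fin n))) :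
    {x : SimpleGraph (Fin n) × Fin n | x.1 ∈ A}.ncard = A.ncard * n := by
  have : {x : SimpleGraph (Fin n) × Fin n | x.1 ∈ A} = A ×ˢ (Set.univ : Set (Fin n)) := by
    ext x
    simp
  rw [this, Set.ncard_prod, Set.ncard_univ, Nat.card_eq_fintype_card, Fintype.card_fin]

lemma hubSet_le_GSet (n d : ℕ) (hd : 7 ≤ d) : (HubSet n d).ncard ≤ (GSet n).ncard := by
  refine Set.ncard_le_ncard_of_injOn (fun x => x.1) ?_ ?_ (Set.toFinite _)
  · rintro ⟨G, h⟩ ⟨h1, h2, _⟩
    exact ⟨h1, not_twoClaws_of_isHub h2⟩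
  · rintro ⟨G, h⟩ ⟨_, h2, h3⟩ ⟨G', h'⟩ ⟨_, h2', h3'⟩ heq
    simp only at heq h2 h3 h2' h3'
    subst heq
    rw [h2.unique (h' := h') (by omega)]

lemma hubLe_le (n D k : ℕ) (hk : 7 ≤ k) :
    (HubLe n D).ncard * (n - (D + k)) ^ k ≤ (D + 1) * ((GSet n).ncard * (D + k) ^ k) := by
  classical
  have h1 : HubLe n D ⊆ ⋃ d ∈ Finset.range (D + 1), HubSet n d := by
    intro x hx
    simp only [Set.mem_iUnion]
    exact ⟨(nbh x.1 x.2).ncard, Finset.mem_range.2 (Nat.lt_succ_of_le hx.2.2), hx.1, hx.2.1, rfl⟩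
  have h2 : (HubLe n D).ncard ≤ ∑ d ∈ Finset.range (D + 1), (HubSet n d).ncard := by
    refine (Set.ncard_le_ncard h1 (Set.toFinite _)).trans ?_
    exact Finset.set_ncard_biUnion_le _ _
  calc (HubLe n D).ncard * (n - (D + k)) ^ k
      ≤ (∑ d ∈ Finset.range (D + 1), (HubSet n d).ncard) * (n - (D + k)) ^ k :=
        Nat.mul_le_mul_right _ h2
    _ = ∑ d ∈ Finset.range (D + 1), (HubSet n d).ncard * (n - (D + k)) ^ k := by
        rw [Finset.sum_mul]
    _ ≤ ∑ d ∈ Finset.range (D + 1), (GSet n).ncard * (D + k) ^ k := by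
        apply Finset.sum_le_sum
        intro d hd
        have hd' := Finset.mem_range.1 hd
        refine (hubSet_iter n (D + k) k d (by omega)).trans ?_
        apply Nat.mul_le_mul_right
        exact hubSet_le_GSet n (d + k) (by omega)
    _ = (D + 1) * ((GSet n).ncard * (D + k) ^ k) := by
        rw [Finset.sum_const, Finset.card_range, smul_eq_mul]

lemma small_negligible (K : ℕ) :
    ∃ N : ℕ, ∀ n, N ≤ n → ∀ (Γ : Subgroup (Equiv.Perm (Fin n)))
      (s : Setoid (SimpleGraph (Fin n) × Fin n))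
      (_ : ∀ x y, s.r x y ↔ ∃ σ ∈ Γ, act σ x = y),
      10 * (Quotient.mk s '' {x | x.1 ∈ SmallSet n K}).ncard ≤ (Quotient.mk s '' MSet n).ncard := by
  classical
  set D := 4 + 4 * K with hD
  set c := 4 + (4 * K + 4 * K * K) with hc
  set k := c + 5 with hk
  set E := D + k with hE
  set C := (2 ^ (D + 1)) ^ 4 with hC
  set C' := C * ((D + 1) * E ^ k) with hC'
  refine ⟨4 + 2 * E + 10 * C' * 2 ^ (c + 4), ?_⟩
  intro n hn Γ s hs
  have hn4 : 4 ≤ n := by omega
  have h2E : 2 * E ≤ n := by omega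
  have hCn : 10 * C' * 2 ^ (c + 4) ≤ n - E := by omega
  have hnE : n ≤ 2 * (n - E) := by omega
  have hnEpos : 0 < n - E := by omega
  set S := (Quotient.mk s '' {x | x.1 ∈ SmallSet n K}).ncard with hS
  set M := (Quotient.mk s '' MSet n).ncard with hM
  have hΓ : 0 < Nat.card Γ := Nat.card_pos
  have e1 : S * Nat.card Γ ≤ ((SmallSet n K).ncard * n) * n ^ c := by
    rw [← ncard_rooted]
    refine card_mul_cl_le Γ s hs _ ?_ _ ?_
    · rintro x hx σ
      refine ⟨act_connected hx.1, act_not_twoClaws hx.2.1, ?_⟩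
      intro v
      have := act_nbh σ x (σ.symm v)
      rw [σ.apply_symm_apply] at this
      rw [this]
      exact hx.2.2 _
    · intro x hx
      exact aut_ncard_le hn4 hx
  have e2 : (GSet n).ncard * n ≤ M * Nat.card Γ := by
    rw [← ncard_rooted]
    exact le_card_mul_cl Γ s hs (MSet n)
  have e3 : (SmallSet n K).ncard * (n - E) ^ k ≤ n ^ 4 * (C' * (GSet n).ncard) := by
    have f1 := smallSet_ncard_le n K hn4
    have f2 := hubLe_le n D k (by omega)
    calc (SmallSet n K).ncard * (n - E) ^ k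
        ≤ ((n ^ 4 * (HubLe n D).ncard) * C) * (n - E) ^ k := Nat.mul_le_mul_right _ f1
      _ = n ^ 4 * (C * ((HubLe n D).ncard * (n - E) ^ k)) := by ring
      _ ≤ n ^ 4 * (C * ((D + 1) * ((GSet n).ncard * E ^ k))) := by
          apply Nat.mul_le_mul_left
          apply Nat.mul_le_mul_left
          exact f2
      _ = n ^ 4 * (C' * (GSet n).ncard) := by rw [hC']; ring
  have e4 : S * (n - E) ^ k * Nat.card Γ ≤ (n ^ (c + 4) * C' * M) * Nat.card Γ := by
    calc S * (n - E) ^ k * Nat.card Γ = (S * Nat.card Γ) * (n - E) ^ k := by ring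
      _ ≤ (((SmallSet n K).ncard * n) * n ^ c) * (n - E) ^ k := Nat.mul_le_mul_right _ e1
      _ = ((SmallSet n K).ncard * (n - E) ^ k) * (n * n ^ c) := by ring
      _ ≤ (n ^ 4 * (C' * (GSet n).ncard)) * (n * n ^ c) := Nat.mul_le_mul_right _ e3
      _ = (n ^ (c + 4) * C') * ((GSet n).ncard * n) := by ring
      _ ≤ (n ^ (c + 4) * C') * (M * Nat.card Γ) := Nat.mul_le_mul_left _ e2
      _ = (n ^ (c + 4) * C' * M) * Nat.card Γ := by ring
  have e5 : S * (n - E) ^ k ≤ n ^ (c + 4) * C' * M := Nat.le_of_mul_le_mul_right e4 hΓ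
  have e6 : 10 * C' * n ^ (c + 4) ≤ (n - E) ^ k := by
    calc 10 * C' * n ^ (c + 4) ≤ 10 * C' * (2 * (n - E)) ^ (c + 4) := by
          apply Nat.mul_le_mul_left
          exact Nat.pow_le_pow_left hnE _
      _ = (10 * C' * 2 ^ (c + 4)) * (n - E) ^ (c + 4) := by rw [mul_pow]; ring
      _ ≤ (n - E) * (n - E) ^ (c + 4) := Nat.mul_le_mul_right _ hCn
      _ = (n - E) ^ k := by rw [hk]; ring
  have e7 : (10 * S) * (n - E) ^ k ≤ M * (n - E) ^ k := by
    calc (10 * S) * (n - E) ^ k = 10 * (S * (n - E) ^ k) := by ring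
      _ ≤ 10 * (n ^ (c + 4) * C' * M) := Nat.mul_le_mul_left _ e5
      _ = (10 * C' * n ^ (c + 4)) * M := by ring
      _ ≤ (n - E) ^ k * M := Nat.mul_le_mul_right _ e6
      _ = M * (n - E) ^ k := by ring
  exact Nat.le_of_mul_le_mul_right e7 (pow_pos hnEpos _)

lemma ball_map {V W : Type*} {G : SimpleGraph V} {G' : SimpleGraph W} (e : G ≃g G') (o v : V)
    (r : ℕ) : e v ∈ ball G' (e o) r ↔ v ∈ ball G o r := by
  constructor
  · rintro ⟨p, hp⟩
    have q := p.map e.symm.toHom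
    have hq : (p.map e.symm.toHom).length ≤ r := by rwa [SimpleGraph.Walk.length_map]
    have h1 : e.symm.toHom (e o) = o := e.symm_apply_apply o
    have h2 : e.symm.toHom (e v) = v := e.symm_apply_apply v
    exact ⟨(p.map e.symm.toHom).copy h1 h2, by rwa [SimpleGraph.Walk.length_copy]⟩
  · rintro ⟨p, hp⟩
    exact ⟨p.map e.toHom, by rwa [SimpleGraph.Walk.length_map]⟩

lemma BallIso.of_rootedIso {V W X : Type*} {G : SimpleGraph V} {o : V} {G' : SimpleGraph W}
    {o' : W} {H : SimpleGraph X} {p : X} {r : ℕ} (h : RootedIso G o G' o')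
    (hb : BallIso r G o H p) : BallIso r G' o' H p := by
  obtain ⟨e, rfl⟩ := h
  refine RootedIso.trans ?_ hb
  refine RootedIso.symm ⟨⟨e.toEquiv.subtypeEquiv (fun v => (ball_map e o v r).symm), ?_⟩, ?_⟩
  · intro a b
    exact e.map_adj_iff
  · rfl

lemma BallIso.card {V : Type*} [Finite V] {G : SimpleGraph V} {o : V} {k : ℕ}
    {H : SimpleGraph (Fin k)} {p : Fin k} {r : ℕ} (h : BallIso r G o H p) :
    (ball G o r).ncard = k := by
  obtain ⟨e, _⟩ := h
  rw [← Nat.card_coe_set_eq, Nat.card_congr e.toEquiv, Nat.card_eq_fintype_card,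
    Fintype.card_fin]

lemma near_ball {n K : ℕ} {x : SimpleGraph (Fin n) × Fin n} (hx : x ∈ NearSet n K) :
    K + 1 ≤ (ball x.1 x.2 2).ncard := by
  obtain ⟨_, h, hK, hadj⟩ := hx
  have hsub : insert h (nbh x.1 h) ⊆ ball x.1 x.2 2 := by
    intro v hv
    rcases hv with rfl | hv
    · exact ⟨hadj.toWalk, by simp⟩
    · have hv' : x.1.Adj h v := hv
      exact ⟨SimpleGraph.Walk.cons hadj (SimpleGraph.Walk.cons hv' SimpleGraph.Walk.nil),
        by simp⟩
  have h1 := Set.ncard_le_ncard hsub (Set.toFinite _)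
  rw [Set.ncard_insert_of_notMem (by simp [nbh]) (Set.toFinite _)] at h1
  omega

theorem no_limit (Γ : ∀ n, Subgroup (Equiv.Perm (Fin n)))
    (s : ∀ n, Setoid (SimpleGraph (Fin n) × Fin n))
    (hs : ∀ n x y, (s n).r x y ↔ ∃ σ ∈ Γ n, act σ x = y)
    (P : (n : ℕ) → Set (SimpleGraph (Fin n) × Fin n) → ℝ)
    (hP : ∀ n E, P n E = ((Quotient.mk (s n) '' (MSet n ∩ E)).ncard : ℝ) /
      ((Quotient.mk (s n) '' MSet n).ncard : ℝ)) : ¬ HasWeakLimit P := by
  classical
  rintro ⟨q, hq, hsum⟩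
  -- a finite set of classes carrying mass more than `0.8`
  have h8 : ∀ᶠ F : Finset FinRootedClass in atTop, (0.8 : ℝ) < ∑ c ∈ F, q 2 c :=
    (hsum 2).eventually (lt_mem_nhds (by norm_num))
  obtain ⟨F, hF⟩ := h8.exists
  set K := 7 + ∑ c ∈ F, c.out.1 with hK
  have hKc : ∀ c ∈ F, c.out.1 ≤ K := by
    intro c hc
    have := Finset.single_le_sum (f := fun c : FinRootedClass => c.out.1)
      (fun _ _ => Nat.zero_le _) hc
    omega
  let Ev : (n : ℕ) → FinRootedClass → Set (SimpleGraph (Fin n) × Fin n) :=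
    fun n c => {x | BallIso 2 x.1 x.2 c.out.2.1 c.out.2.2}
  have hlim : Tendsto (fun n => ∑ c ∈ F, P n (Ev n c)) atTop (𝓝 (∑ c ∈ F, q 2 c)) := by
    apply tendsto_finsetSum
    intro c _
    have := hq 2 c.out
    rwa [Quotient.out_eq] at this
  have hev : ∀ᶠ n in atTop, (0.8 : ℝ) < ∑ c ∈ F, P n (Ev n c) :=
    hlim.eventually (lt_mem_nhds hF)
  obtain ⟨N, hN⟩ := small_negligible K
  obtain ⟨n, hn8, hnN⟩ := (hev.and (eventually_ge_atTop N)).exists
  -- the counts
  have hsmall := hN n hnN (Γ n) (s n) (hs n)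
  have hcl := cl_le (Γ n) (s n) (hs n) K (by omega)
  set mk := Quotient.mk (s n) with hmk
  have hcl' : (mk '' MSet n).ncard ≤ (mk '' {x | x.1 ∈ SmallSet n K}).ncard +
        3 * (mk '' NearSet n K).ncard := hcl
  -- disjointness
  have hiso : ∀ x y, mk x = mk y → RootedIso x.1 x.2 y.1 y.2 := by
    intro x y hxy
    obtain ⟨σ, _, rfl⟩ := (hs n _ _).1 (Quotient.exact hxy)
    exact ⟨⟨σ, fun {u v} => act_adj' σ x u v⟩, rfl⟩
  have hdisj1 : ∀ c ∈ F, ∀ c' ∈ F, c ≠ c' →
      Disjoint (mk '' (MSet n ∩ Ev n c)) (mk '' (MSet n ∩ Ev n c')) := by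
    intro c _ c' _ hcc'
    rw [Set.disjoint_left]
    rintro _ ⟨x, ⟨_, hx⟩, rfl⟩ ⟨y, ⟨_, hy⟩, hyx⟩
    apply hcc'
    have h1 := BallIso.of_rootedIso (hiso _ _ hyx) hy
    have h2 : RootedIso c.out.2.1 c.out.2.2 c'.out.2.1 c'.out.2.2 :=
      RootedIso.trans (RootedIso.symm hx) h1
    rw [← Quotient.out_eq c, ← Quotient.out_eq c']
    exact Quotient.sound h2
  have hdisj2 : ∀ c ∈ F, Disjoint (mk '' (MSet n ∩ Ev n c)) (mk '' NearSet n K) := by
    intro c hc
    rw [Set.disjoint_left]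
    rintro _ ⟨x, ⟨_, hx⟩, rfl⟩ ⟨y, hy, hyx⟩
    have h1 := BallIso.of_rootedIso (hiso _ _ hyx.symm) hx
    have h2 := BallIso.card h1
    have h3 := near_ball hy
    have h4 := hKc c hc
    omega
  have hcount : ∑ c ∈ F, (mk '' (MSet n ∩ Ev n c)).ncard + (mk '' NearSet n K).ncard ≤
      (mk '' MSet n).ncard := by
    have hun : ∑ c ∈ F, (mk '' (MSet n ∩ Ev n c)).ncard =
        (⋃ c ∈ F, mk '' (MSet n ∩ Ev n c)).ncard := by
      rw [Set.ncard_eq_toFinset_card']
      have : (⋃ c ∈ F, mk '' (MSet n ∩ Ev n c)).toFinset =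
          F.biUnion fun c => (mk '' (MSet n ∩ Ev n c)).toFinset := by
        ext y
        simp
      rw [this, Finset.card_biUnion]
      · apply Finset.sum_congr rfl
        intro c _
        rw [Set.ncard_eq_toFinset_card']
      · intro c hc c' hc' hcc'
        have := hdisj1 c hc c' hc' hcc'
        rwa [← Set.disjoint_toFinset] at this
    rw [hun, ← Set.ncard_union_eq _ (Set.toFinite _) (Set.toFinite _)]
    · apply Set.ncard_le_ncard _ (Set.toFinite _)
      apply Set.union_subset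
      · apply Set.iUnion₂_subset
        intro c _
        exact Set.image_mono Set.inter_subset_left
      · apply Set.image_mono
        intro x hx
        exact hx.1
    · rw [Set.disjoint_iUnion₂_left]
      exact hdisj2
  -- conclude
  simp only [hP] at hn8
  rw [← Finset.sum_div, lt_div_iff₀'] at hn8
  · have hcount' : (∑ c ∈ F, ((mk '' (MSet n ∩ Ev n c)).ncard : ℝ)) +
        ((mk '' NearSet n K).ncard : ℝ) ≤ ((mk '' MSet n).ncard : ℝ) := by
      exact_mod_cast hcount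
    have hcl'' : ((mk '' MSet n).ncard : ℝ) ≤ ((mk '' {x | x.1 ∈ SmallSet n K}).ncard : ℝ) +
        3 * ((mk '' NearSet n K).ncard : ℝ) := by exact_mod_cast hcl'
    have hsmall' : 10 * ((mk '' {x | x.1 ∈ SmallSet n K}).ncard : ℝ) ≤
        ((mk '' MSet n).ncard : ℝ) := by exact_mod_cast hsmall
    have hnn : (0 : ℝ) ≤ ((mk '' MSet n).ncard : ℝ) := Nat.cast_nonneg _
    linarith
  · by_contra h0
    push Not at h0
    have h1 : ((mk '' MSet n).ncard : ℝ) = 0 := le_antisymm h0 (Nat.cast_nonneg _)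
    rw [h1, div_zero] at hn8
    norm_num at hn8

end Pool.Agent.Lib.MP_e761a2_pr
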